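import Mathlib

/-!
# Rational curves on Calabi-Yau threefolds: the objects

A structure `Data` lists the invariants of a Calabi-Yau threefold which the proof uses.

Notation.  `X` is a smooth simply connected complex projective threefold with trivial canonical
bundle and `H^i(X, O) = 0` for `i = 1, 2`.  Then `Pic X` is a free abelian group of rank
`n`, equal to the group of divisors modulo numerical equivalence; we choose a basis and
write line bundles (and classes of divisors) as integer vectors `Fin n → ℤ`, real classes
as vectors `Fin n → ℝ`.
-/

namespace Pool.OG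

/-- The trilinear form with integer coefficients `t`, evaluated at three real vectors. -/
def tri {n : ℕ} (t : Fin n → Fin n → Fin n → ℤ) (x y z : Fin n → ℝ) : ℝ :=
  ∑ i, ∑ j, ∑ k, (t i j k : ℝ) * x i * y j * z k

/-- The linear form with integer coefficients `c`, evaluated at a real vector. -/
def lin {n : ℕ} (c : Fin n → ℤ) (x : Fin n → ℝ) : ℝ := ∑ i, (c i : ℝ) * x i

/-- An integral class, seen as a real class. -/
def re {n : ℕ} (D : Fin n → ℤ) : Fin n → ℝ := fun i => (D i : ℝ)

/-- The invariants of a Calabi-Yau threefold `X` which are used. -/
structure Data where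
  /-- the Picard number -/
  n : ℕ
  /-- intersection numbers of the basis of the Picard group -/
  t : Fin n → Fin n → Fin n → ℤ
  /-- the second Chern class of `X` as a linear form on the Picard group -/
  c2 : Fin n → ℤ
  /-- the line bundle is ample -/
  Ample : (Fin n → ℤ) → Prop
  /-- `h i D` is the dimension of `H^i(X, O(D))` -/
  h : ℕ → (Fin n → ℤ) → ℕ
  /-- `X` contains a rational curve -/
  RC : Prop
  /-- vector bundles of rank two on `X` -/
  Bd : Type
  /-- first Chern class of a bundle of rank two -/
  b1 : Bd → Fin n → ℤ
  /-- second Chern class of a bundle of rank two, as a linear form on the Picard group -/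
  b2 : Bd → Fin n → ℤ
  /-- `Sub A E`: the line bundle `A` is a saturated subsheaf of `E` -/
  Sub : (Fin n → ℤ) → Bd → Prop
  /-- `Stable H E`: `E` is slope stable for the polarization `H` -/
  Stable : (Fin n → ℤ) → Bd → Prop
  /-- closed points of `X` -/
  Pt : Type
  /-- irreducible curves in `X` -/
  Cv : Type
  /-- prime divisors of `X` -/
  Pr : Type
  /-- the intersection numbers of a curve with the basis of the Picard group -/
  dg : Cv → Fin n → ℤ
  /-- class of a prime divisor -/
  cl : Pr → Fin n → ℤ
  /-- multiplicity of a prime divisor at a point (`0` if the point is not on it) -/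
  mp : Pr → Pt → ℕ
  /-- multiplicity of a prime divisor along a curve, that is, at the general point of the
  curve (`0` if the curve is not contained in it) -/
  mc : Pr → Cv → ℕ
  /-- multiplicity of a curve at a point (`0` if the point is not on it) -/
  mq : Cv → Pt → ℕ

/-- The nef cone: real classes with nonnegative degree on all curves. -/
def Nef (X : Data) : Set (Fin X.n → ℝ) := {x | ∀ C, 0 ≤ lin (X.dg C) x}

/-- Class of a rational divisor. -/
noncomputable def cls (X : Data) (D : X.Pr →₀ ℚ) : Fin X.n → ℝ :=
  D.sum fun p a => (a : ℝ) • re (X.cl p)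

/-- Multiplicity of a rational divisor at a point. -/
noncomputable def mpt (X : Data) (D : X.Pr →₀ ℚ) (x : X.Pt) : ℝ :=
  D.sum fun p a => (a : ℝ) * (X.mp p x : ℝ)

/-- Multiplicity of a rational divisor along a curve. -/
noncomputable def mcv (X : Data) (D : X.Pr →₀ ℚ) (C : X.Cv) : ℝ :=
  D.sum fun p a => (a : ℝ) * (X.mc p C : ℝ)

/-- `D` is an effective rational divisor numerically equivalent to `H`. -/
def Eff (X : Data) (D : X.Pr →₀ ℚ) (H : Fin X.n → ℤ) : Prop :=
  (∀ p, 0 ≤ D p) ∧ cls X D = re H

end Pool.OG
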