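import Mathlib
import Pool.Agent.H19.OG.Base

/-!
# The properties used in the proof

The structure `Facts` is the form in which the proof uses the published theorems.  The final
statement assumes a shorter and more elementary list, `Published` in the file `Theory`; the
present list is deduced from it.
-/

namespace Pool.OG

/-- Intersection form and positivity. -/
structure Pos (X : Data) : Prop where
  /-- the intersection form is symmetric -/
  symm1 : ∀ i j k, X.t i j k = X.t j i k
  /-- the intersection form is symmetric -/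
  symm2 : ∀ i j k, X.t i j k = X.t i k j
  /-- a line bundle of degree zero on every curve is trivial (`X` is simply connected and
  `H^1(X, O) = 0`) -/
  numerical : ∀ D : Fin X.n → ℤ, (∀ C, lin (X.dg C) (re D) = 0) → D = 0
  /-- `X` is projective -/
  projective : ∃ H, X.Ample H
  /-- Kleiman 1966: the ample cone is the interior of the nef cone -/
  kleiman : ∀ D, X.Ample D ↔ re D ∈ interior (Nef X)
  /-- an ample line bundle has positive degree on every curve -/
  ample_deg : ∀ D, X.Ample D → ∀ C, 0 < lin (X.dg C) (re D)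
  /-- an ample line bundle has positive self-intersection -/
  ample_cube : ∀ D, X.Ample D → 0 < tri X.t (re D) (re D) (re D)
  /-- Kleiman 1966: intersection numbers of nef classes are nonnegative -/
  nef_mul : ∀ x ∈ Nef X, ∀ y ∈ Nef X, ∀ z ∈ Nef X, 0 ≤ tri X.t x y z
  /-- Hodge index theorem (on a smooth surface in a multiple of an ample `H`) -/
  hodge : ∀ H, X.Ample H → ∀ x : Fin X.n → ℝ, tri X.t x (re H) (re H) = 0 →
    tri X.t x x (re H) ≤ 0
  /-- Yau 1978: `c2 · H > 0` for `H` ample, as `X` is not covered by an abelian threefold -/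
  c2_pos : ∀ H, X.Ample H → 0 < lin X.c2 (re H)

/-- Cohomology of line bundles. -/
structure Coh (X : Data) : Prop where
  /-- Riemann-Roch -/
  rr : ∀ D : Fin X.n → ℤ,
    12 * ((X.h 0 D : ℝ) - (X.h 1 D : ℝ) + (X.h 2 D : ℝ) - (X.h 3 D : ℝ)) =
      2 * tri X.t (re D) (re D) (re D) + lin X.c2 (re D)
  /-- Serre duality -/
  serre : ∀ i, i ≤ 3 → ∀ D, X.h i D = X.h (3 - i) (-D)
  /-- Kodaira vanishing -/
  kodaira : ∀ D, X.Ample D → ∀ i, 0 < i → X.h i D = 0
  /-- Peternell 1991: a nonzero effective line bundle is ample, or `X` contains a rational curve -/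
  peternell : ∀ D, D ≠ 0 → X.h 0 D ≠ 0 → X.Ample D ∨ X.RC
  /-- Siu 1993: if `P`, `Q` are nef and `P^3 > 3 P^2 Q`, then `P - Q` is big; in particular
  a positive multiple of `P - Q` is effective -/
  siu : ∀ P Q : Fin X.n → ℤ, re P ∈ Nef X → re Q ∈ Nef X →
    3 * tri X.t (re P) (re P) (re Q) < tri X.t (re P) (re P) (re P) →
    ∃ m : ℕ, 0 < m ∧ X.h 0 ((m : ℤ) • (P - Q)) ≠ 0

/-- Vector bundles of rank two. -/
structure Bun (X : Data) : Prop where
  /-- If `H^1(X, O(-D))` is not zero, there is a non-split extension `E` of `O(D)` by `O`.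
  A line subsheaf of `E` maps to zero in `O(D)`, and then lies in `O`, or it maps
  to `O(D)` by a nonzero map which is not an isomorphism. -/
  ext : ∀ D, X.h 1 (-D) ≠ 0 → ∃ E, X.b1 E = D ∧ X.b2 E = 0 ∧
    ∀ A, X.Sub A E → X.h 0 (-A) ≠ 0 ∨ (D - A ≠ 0 ∧ X.h 0 (D - A) ≠ 0)
  /-- definition of slope stability -/
  unst : ∀ H, X.Ample H → ∀ E, ¬ X.Stable H E → ∃ A, X.Sub A E ∧
    tri X.t (re (X.b1 E)) (re H) (re H) ≤ 2 * tri X.t (re A) (re H) (re H)
  /-- the quotient of `E` by a saturated line subsheaf `A` is the ideal sheaf of a closed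
  subscheme `Z` of codimension two, twisted by `c1(E) - A`, and `c2(E) = A · (c1(E) - A) + [Z]` -/
  sub_c2 : ∀ H, X.Ample H → ∀ A E, X.Sub A E →
    tri X.t (re A) (re (X.b1 E - A)) (re H) ≤ lin (X.b2 E) (re H)
  /-- Donaldson 1985, Uhlenbeck-Yau 1986, Luebke 1982: a slope stable bundle has discriminant of
  nonnegative degree, and if the degree is zero it is projectively flat; as `X` is simply
  connected, a projectively flat bundle of rank two is a sum of two isomorphic line bundles and
  is not stable -/
  luebke : ∀ H, X.Ample H → ∀ E, X.Stable H E →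
    tri X.t (re (X.b1 E)) (re (X.b1 E)) (re H) < 4 * lin (X.b2 E) (re H)

/-- Prime divisors, curves and multiplicities. -/
structure Cyc (X : Data) : Prop where
  /-- a prime divisor is effective -/
  pr_h0 : ∀ p, X.h 0 (X.cl p) ≠ 0
  /-- a prime divisor is not numerically trivial -/
  pr_ne : ∀ p, X.cl p ≠ 0
  /-- multiplicity is upper semicontinuous -/
  mc_le : ∀ p C x, 0 < X.mq C x → X.mc p C ≤ X.mp p x
  /-- Bezout: if a curve is not contained in a prime divisor, their intersection number is at
  least the product of the multiplicities at any point -/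
  bez : ∀ p C x, X.mc p C = 0 → (X.mp p x : ℝ) * (X.mq C x : ℝ) ≤ lin (X.dg C) (re (X.cl p))
  /-- the intersection cycle of two distinct prime divisors (Fulton, Corollary 12.4) -/
  inter : ∀ p q, p ≠ q → ∃ a : X.Cv →₀ ℕ,
    (∀ A : Fin X.n → ℤ, tri X.t (re (X.cl p)) (re (X.cl q)) (re A) =
      a.sum fun C k => (k : ℝ) * lin (X.dg C) (re A)) ∧
    ∀ x, X.mp p x * X.mp q x ≤ a.sum fun C k => k * X.mq C x
  /-- two distinct curves meet in a finite set -/
  cv_meet : ∀ C C', C ≠ C' → {x | 0 < X.mq C x ∧ 0 < X.mq C' x}.Finite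
  /-- a curve has a finite set of singular points -/
  cv_sing : ∀ C, {x | 1 < X.mq C x}.Finite
  /-- two distinct prime divisors have a finite set of common curves -/
  pr_meet : ∀ p q, p ≠ q → {C | 0 < X.mc p C ∧ 0 < X.mc q C}.Finite
  /-- a prime divisor is singular along a finite set of curves -/
  pr_sing : ∀ p, {C | 1 < X.mc p C}.Finite
  /-- a general member of the pencil spanned by (multiples of) two effective divisors of the
  same class: it contains no prime divisor of a given finite set, except those which both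
  contain, and its multiplicity at a point is at least the smaller one -/
  pencil : ∀ H D₁ D₂, Eff X D₁ H → Eff X D₂ H → ∀ S : Finset X.Pr, ∀ x, ∃ D, Eff X D H ∧
    (∀ p ∈ S, D₁ p = 0 ∨ D₂ p = 0 → D p = 0) ∧ min (mpt X D₁ x) (mpt X D₂ x) ≤ mpt X D x

/-- Valuation vectors of sections. -/
structure Wid (X : Data) : Prop where
  /-- Let `H` be ample, `x` a point, `E = P^2` the exceptional divisor of the blow-up of `x`;
  choose a line in `E` and a point on the line.  The valuation vector of a nonzero section of
  `k H` is `(m, a, b)`: `m` is its multiplicity at `x`, `a` the multiplicity of the line in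
  the plane curve of degree `m` in `E` given by the leading form, and `b` the multiplicity of
  the point in the divisor of degree `m - a` cut out on the line by the rest of the curve.
  `S k` is the set of these vectors.  It has `h^0(k H)` elements, because a valuation of maximal
  rational rank has one-dimensional leaves (Lazarsfeld-Mustata 2009, Lemma 1.4), and
  valuation vectors of products are sums.  The last line: some multiple of `H` separates
  tangent vectors at `x`. -/
  val : ∀ H, X.Ample H → ∀ x, ∃ S : ℕ → Finset (ℤ × (ℤ × ℤ)),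
    (∀ k : ℕ, 0 < k → (S k).card = X.h 0 ((k : ℤ) • H)) ∧
    (∀ j k, 0 < j → 0 < k → ∀ s ∈ S j, ∀ s' ∈ S k, s + s' ∈ S (j + k)) ∧
    (∀ s ∈ S 1, 0 ≤ s.2.1 ∧ 0 ≤ s.2.2 ∧ s.2.1 + s.2.2 ≤ s.1 ∧
      ∃ D, Eff X D H ∧ mpt X D x = (s.1 : ℝ)) ∧
    ∃ k, 0 < k ∧ (0, (0, 0)) ∈ S k ∧ (1, (0, 0)) ∈ S k ∧ (1, (1, 0)) ∈ S k ∧ (1, (0, 1)) ∈ S k

/-- Properties of the set `V` of very general points (the complement of a suitable countable
union of proper closed subsets of `X`). -/
structure VG (X : Data) (V : Set X.Pt) : Prop where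
  /-- there are very general points -/
  ne : V.Nonempty
  /-- a curve through a very general point contains infinitely many of them -/
  dense : ∀ C x, x ∈ V → 0 < X.mq C x → ∀ S : Finset X.Pt, ∃ z ∈ V, 0 < X.mq C z ∧ z ∉ S
  /-- Ein-Kuechle-Lazarsfeld 1995, Proposition 2.3 (differentiation in a family), for curves
  through a very general point -/
  curve : ∀ H, X.Ample H → ∀ x ∈ V, ∀ C, 0 < X.mq C x → ∀ D, Eff X D H →
    ∃ D', Eff X D' H ∧ mcv X D' C = 0 ∧ mpt X D x - mcv X D C ≤ mpt X D' x
  /-- Ein-Kuechle-Lazarsfeld 1995, Proposition 2.3, for prime divisors through a very general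
  point -/
  prime : ∀ H, X.Ample H → ∀ x ∈ V, ∀ p, 0 < X.mp p x → ∀ D, Eff X D H →
    ∃ D', Eff X D' H ∧ D' p = 0 ∧ mpt X D x - (D p : ℝ) ≤ mpt X D' x

/-- All the published theorems used. -/
structure Facts (X : Data) : Prop where
  pos : Pos X
  coh : Coh X
  bun : Bun X
  cyc : Cyc X
  wid : Wid X
  vg : ∃ V, VG X V

end Pool.OG
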