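import Mathlib
import Pool.Agent.H19.OG.Defs

/-!
Elementary facts on the trilinear form, the nef cone and rational divisors.
-/

namespace Pool.OG

open Finset

variable {n : ℕ}

section trilinear

variable (t : Fin n → Fin n → Fin n → ℤ) (c : Fin n → ℤ)

theorem lin_add (x y : Fin n → ℝ) : lin c (x + y) = lin c x + lin c y := by
  simp only [lin, Pi.add_apply, mul_add, Finset.sum_add_distrib]

theorem lin_smul (a : ℝ) (x : Fin n → ℝ) : lin c (a • x) = a * lin c x := by
  simp only [lin, Pi.smul_apply, smul_eq_mul, Finset.mul_sum]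
  exact Finset.sum_congr rfl fun i _ => by ring

theorem lin_neg (x : Fin n → ℝ) : lin c (-x) = -lin c x := by
  simp only [lin, Pi.neg_apply, mul_neg, Finset.sum_neg_distrib]

theorem lin_sub (x y : Fin n → ℝ) : lin c (x - y) = lin c x - lin c y := by
  rw [sub_eq_add_neg, lin_add, lin_neg]; ring

theorem lin_zero : lin c (0 : Fin n → ℝ) = 0 := by
  simp [lin]

theorem lin_continuous : Continuous (lin c) := by
  unfold lin; fun_prop

theorem tri_add1 (x x' y z : Fin n → ℝ) : tri t (x + x') y z = tri t x y z + tri t x' y z := by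
  simp only [tri, ← Finset.sum_add_distrib, Pi.add_apply]
  refine Finset.sum_congr rfl fun i _ => Finset.sum_congr rfl fun j _ =>
    Finset.sum_congr rfl fun k _ => by ring

theorem tri_add2 (x y y' z : Fin n → ℝ) : tri t x (y + y') z = tri t x y z + tri t x y' z := by
  simp only [tri, ← Finset.sum_add_distrib, Pi.add_apply]
  refine Finset.sum_congr rfl fun i _ => Finset.sum_congr rfl fun j _ =>
    Finset.sum_congr rfl fun k _ => by ring

theorem tri_add3 (x y z z' : Fin n → ℝ) : tri t x y (z + z') = tri t x y z + tri t x y z' := by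
  simp only [tri, ← Finset.sum_add_distrib, Pi.add_apply]
  refine Finset.sum_congr rfl fun i _ => Finset.sum_congr rfl fun j _ =>
    Finset.sum_congr rfl fun k _ => by ring

theorem tri_smul1 (a : ℝ) (x y z : Fin n → ℝ) : tri t (a • x) y z = a * tri t x y z := by
  simp only [tri, Finset.mul_sum, Pi.smul_apply, smul_eq_mul]
  refine Finset.sum_congr rfl fun i _ => Finset.sum_congr rfl fun j _ =>
    Finset.sum_congr rfl fun k _ => by ring

theorem tri_smul2 (a : ℝ) (x y z : Fin n → ℝ) : tri t x (a • y) z = a * tri t x y z := by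
  simp only [tri, Finset.mul_sum, Pi.smul_apply, smul_eq_mul]
  refine Finset.sum_congr rfl fun i _ => Finset.sum_congr rfl fun j _ =>
    Finset.sum_congr rfl fun k _ => by ring

theorem tri_smul3 (a : ℝ) (x y z : Fin n → ℝ) : tri t x y (a • z) = a * tri t x y z := by
  simp only [tri, Finset.mul_sum, Pi.smul_apply, smul_eq_mul]
  refine Finset.sum_congr rfl fun i _ => Finset.sum_congr rfl fun j _ =>
    Finset.sum_congr rfl fun k _ => by ring

theorem tri_sub1 (x x' y z : Fin n → ℝ) : tri t (x - x') y z = tri t x y z - tri t x' y z := by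
  have h : x - x' = x + (-1 : ℝ) • x' := by simp [sub_eq_add_neg]
  rw [h, tri_add1, tri_smul1]; ring

theorem tri_sub2 (x y y' z : Fin n → ℝ) : tri t x (y - y') z = tri t x y z - tri t x y' z := by
  have h : y - y' = y + (-1 : ℝ) • y' := by simp [sub_eq_add_neg]
  rw [h, tri_add2, tri_smul2]; ring

theorem tri_sub3 (x y z z' : Fin n → ℝ) : tri t x y (z - z') = tri t x y z - tri t x y z' := by
  have h : z - z' = z + (-1 : ℝ) • z' := by simp [sub_eq_add_neg]
  rw [h, tri_add3, tri_smul3]; ring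

theorem tri_zero1 (y z : Fin n → ℝ) : tri t 0 y z = 0 := by simp [tri]
theorem tri_zero2 (x z : Fin n → ℝ) : tri t x 0 z = 0 := by simp [tri]
theorem tri_zero3 (x y : Fin n → ℝ) : tri t x y 0 = 0 := by simp [tri]

/-- The integer valued trilinear form. -/
def triZ (x y z : Fin n → ℤ) : ℤ := ∑ i, ∑ j, ∑ k, t i j k * x i * y j * z k

theorem tri_re (x y z : Fin n → ℤ) : tri t (re x) (re y) (re z) = (triZ t x y z : ℝ) := by
  simp [tri, triZ, re]

theorem re_add (x y : Fin n → ℤ) : re (x + y) = re x + re y := by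
  ext i; simp [re]

theorem re_sub (x y : Fin n → ℤ) : re (x - y) = re x - re y := by
  ext i; simp [re]

theorem re_neg (x : Fin n → ℤ) : re (-x) = -re x := by
  ext i; simp [re]

theorem re_smul (a : ℤ) (x : Fin n → ℤ) : re (a • x) = (a : ℝ) • re x := by
  ext i; simp [re]

theorem re_zero : re (0 : Fin n → ℤ) = 0 := by
  ext i; simp [re]

end trilinear

variable {X : Data}

/-- the intersection form is symmetric (first two arguments) -/
theorem tri_symm1 (hX : Pos X) (x y z : Fin X.n → ℝ) : tri X.t x y z = tri X.t y x z := by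
  unfold tri
  rw [Finset.sum_comm]
  refine Finset.sum_congr rfl fun i _ => Finset.sum_congr rfl fun j _ =>
    Finset.sum_congr rfl fun k _ => ?_
  rw [hX.symm1 j i k]; ring

/-- the intersection form is symmetric (last two arguments) -/
theorem tri_symm2 (hX : Pos X) (x y z : Fin X.n → ℝ) : tri X.t x y z = tri X.t x z y := by
  unfold tri
  refine Finset.sum_congr rfl fun i _ => ?_
  rw [Finset.sum_comm]
  refine Finset.sum_congr rfl fun j _ =>
    Finset.sum_congr rfl fun k _ => ?_
  rw [hX.symm2 i k j]; ring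

/-! ### The nef cone -/

theorem nef_zero : (0 : Fin X.n → ℝ) ∈ Nef X := fun C => by rw [lin_zero]

theorem nef_add {x y : Fin X.n → ℝ} (hx : x ∈ Nef X) (hy : y ∈ Nef X) : x + y ∈ Nef X :=
  fun C => by rw [lin_add]; exact add_nonneg (hx C) (hy C)

theorem nef_smul {a : ℝ} (ha : 0 ≤ a) {x : Fin X.n → ℝ} (hx : x ∈ Nef X) : a • x ∈ Nef X :=
  fun C => by rw [lin_smul]; exact mul_nonneg ha (hx C)

theorem nef_closed : IsClosed (Nef X) := by
  have : Nef X = ⋂ C, {x | 0 ≤ lin (X.dg C) x} := by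
    ext x; simp [Nef]
  rw [this]
  exact isClosed_iInter fun C => isClosed_le continuous_const (lin_continuous _)

/-- interior + nef = interior -/
theorem int_add {x y : Fin X.n → ℝ} (hx : x ∈ interior (Nef X)) (hy : y ∈ Nef X) :
    x + y ∈ interior (Nef X) := by
  rw [mem_interior] at hx ⊢
  obtain ⟨U, hU, hUo, hxU⟩ := hx
  refine ⟨(fun z => z + y) '' U, ?_, ?_, ⟨x, hxU, rfl⟩⟩
  · rintro _ ⟨z, hz, rfl⟩
    exact nef_add (hU hz) hy
  · exact (Homeomorph.addRight y).isOpenMap U hUo

theorem int_smul {a : ℝ} (ha : 0 < a) {x : Fin X.n → ℝ} (hx : x ∈ interior (Nef X)) :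
    a • x ∈ interior (Nef X) := by
  rw [mem_interior] at hx ⊢
  obtain ⟨U, hU, hUo, hxU⟩ := hx
  refine ⟨(fun z => a • z) '' U, ?_, ?_, ⟨x, hxU, rfl⟩⟩
  · rintro _ ⟨z, hz, rfl⟩
    exact nef_smul ha.le (hU hz)
  · exact (Homeomorph.smulOfNeZero a ha.ne').isOpenMap U hUo

theorem int_nef {x : Fin X.n → ℝ} (hx : x ∈ interior (Nef X)) : x ∈ Nef X :=
  interior_subset hx

/-- an interior class absorbs every class -/
theorem int_absorb {x : Fin X.n → ℝ} (hx : x ∈ interior (Nef X)) (y : Fin X.n → ℝ) :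
    ∃ ε : ℝ, 0 < ε ∧ x - ε • y ∈ interior (Nef X) := by
  have hc : Continuous fun ε : ℝ => x - ε • y := by fun_prop
  have h0 : (fun ε : ℝ => x - ε • y) 0 ∈ interior (Nef X) := by simpa using hx
  have ho : IsOpen ((fun ε : ℝ => x - ε • y) ⁻¹' interior (Nef X)) :=
    isOpen_interior.preimage hc
  obtain ⟨δ, hδ, hball⟩ := Metric.isOpen_iff.1 ho 0 h0
  refine ⟨δ / 2, by linarith, ?_⟩
  apply hball
  rw [Metric.mem_ball, Real.dist_eq, sub_zero, abs_of_pos (by linarith)]
  linarith

/-- some multiple of an interior class dominates a given class -/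
theorem int_dom {x : Fin X.n → ℝ} (hx : x ∈ interior (Nef X)) (y : Fin X.n → ℝ) :
    ∃ κ : ℝ, 0 < κ ∧ κ • x - y ∈ Nef X := by
  obtain ⟨ε, hε, h⟩ := int_absorb hx y
  refine ⟨ε⁻¹, inv_pos.2 hε, ?_⟩
  have : ε⁻¹ • x - y = ε⁻¹ • (x - ε • y) := by
    rw [smul_sub, smul_smul, inv_mul_cancel₀ hε.ne', one_smul]
  rw [this]
  exact nef_smul (inv_pos.2 hε).le (int_nef h)

theorem ample_int (hX : Pos X) {D : Fin X.n → ℤ} (h : X.Ample D) : re D ∈ interior (Nef X) :=
  (hX.kleiman D).1 h

theorem ample_nef (hX : Pos X) {D : Fin X.n → ℤ} (h : X.Ample D) : re D ∈ Nef X :=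
  int_nef (ample_int hX h)

/-- the product of three interior classes is positive -/
theorem int_pos (hX : Pos X) {x y z : Fin X.n → ℝ} (hx : x ∈ interior (Nef X))
    (hy : y ∈ interior (Nef X)) (hz : z ∈ interior (Nef X)) : 0 < tri X.t x y z := by
  obtain ⟨H, hH⟩ := hX.projective
  have hHn := ample_nef hX hH
  obtain ⟨a, ha, hxa⟩ := int_absorb hx (re H)
  obtain ⟨b, hb, hyb⟩ := int_absorb hy (re H)
  obtain ⟨c, hc, hzc⟩ := int_absorb hz (re H)
  have hyn := int_nef hy
  have hzn := int_nef hz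
  have h1 := hX.nef_mul _ (int_nef hxa) _ hyn _ hzn
  have h2 := hX.nef_mul _ hHn _ (int_nef hyb) _ hzn
  have h3 := hX.nef_mul _ hHn _ hHn _ (int_nef hzc)
  have h4 := hX.ample_cube H hH
  rw [tri_sub1, tri_smul1] at h1
  rw [tri_sub2, tri_smul2] at h2
  rw [tri_sub3, tri_smul3] at h3
  have h5 : 0 < tri X.t (re H) (re H) z := by nlinarith [mul_pos hc h4]
  have h6 : 0 < tri X.t (re H) y z := by nlinarith [mul_pos hb h5]
  nlinarith [mul_pos ha h6]

/-- `c2` is nonnegative on integral nef classes -/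
theorem c2_nonneg (hX : Pos X) {D : Fin X.n → ℤ} (hD : re D ∈ Nef X) : 0 ≤ lin X.c2 (re D) := by
  obtain ⟨H, hH⟩ := hX.projective
  by_contra h
  push Not at h
  obtain ⟨m, hm⟩ := exists_nat_gt (lin X.c2 (re H) / (-lin X.c2 (re D)))
  have hm' : lin X.c2 (re H) < m * (-lin X.c2 (re D)) := by
    rwa [div_lt_iff₀ (by linarith)] at hm
  have ha : X.Ample (H + (m : ℤ) • D) := by
    rw [hX.kleiman, re_add, re_smul]
    exact int_add (ample_int hX hH) (nef_smul (by positivity) hD)
  have := hX.c2_pos _ ha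
  rw [re_add, re_smul, lin_add, lin_smul] at this
  push_cast at this
  linarith

/-! ### Rational divisors -/

theorem cls_add (D D' : X.Pr →₀ ℚ) : cls X (D + D') = cls X D + cls X D' := by
  unfold cls
  rw [Finsupp.sum_add_index']
  · intro p; simp
  · intro p a b; push_cast; rw [add_smul]

theorem mpt_add (D D' : X.Pr →₀ ℚ) (x : X.Pt) : mpt X (D + D') x = mpt X D x + mpt X D' x := by
  unfold mpt
  rw [Finsupp.sum_add_index']
  · intro p; simp
  · intro p a b; push_cast; rw [add_mul]

theorem mcv_add (D D' : X.Pr →₀ ℚ) (C : X.Cv) : mcv X (D + D') C = mcv X D C + mcv X D' C := by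
  unfold mcv
  rw [Finsupp.sum_add_index']
  · intro p; simp
  · intro p a b; push_cast; rw [add_mul]

theorem cls_single (p : X.Pr) (a : ℚ) :
    cls X (Finsupp.single p a) = (a : ℝ) • re (X.cl p) := by
  unfold cls
  rw [Finsupp.sum_single_index]
  simp

theorem mpt_nonneg {D : X.Pr →₀ ℚ} (hD : ∀ p, 0 ≤ D p) (x : X.Pt) : 0 ≤ mpt X D x := by
  unfold mpt Finsupp.sum
  exact Finset.sum_nonneg fun p _ => mul_nonneg (by exact_mod_cast hD p) (by positivity)

theorem mcv_nonneg {D : X.Pr →₀ ℚ} (hD : ∀ p, 0 ≤ D p) (C : X.Cv) : 0 ≤ mcv X D C := by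
  unfold mcv Finsupp.sum
  exact Finset.sum_nonneg fun p _ => mul_nonneg (by exact_mod_cast hD p) (by positivity)

/-- without rational curves, effective nonzero line bundles are ample -/
theorem eff_ample (hX : Coh X) (hR : ¬ X.RC) {D : Fin X.n → ℤ} (h0 : D ≠ 0) (h : X.h 0 D ≠ 0) :
    X.Ample D :=
  (hX.peternell D h0 h).resolve_right hR

/-- without rational curves, prime divisors are ample -/
theorem pr_ample (hX : Coh X) (hC : Cyc X) (hR : ¬ X.RC) (p : X.Pr) : X.Ample (X.cl p) :=
  eff_ample hX hR (hC.pr_ne p) (hC.pr_h0 p)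

/-- without rational curves, effective rational divisors are nef -/
theorem eff_nef (hP : Pos X) (hX : Coh X) (hC : Cyc X) (hR : ¬ X.RC) {D : X.Pr →₀ ℚ}
    (hD : ∀ p, 0 ≤ D p) : cls X D ∈ Nef X := by
  classical
  unfold cls Finsupp.sum
  have : ∀ s : Finset X.Pr, (∑ p ∈ s, ((D p : ℚ) : ℝ) • re (X.cl p)) ∈ Nef X := by
    intro s
    induction s using Finset.induction_on with
    | empty => simpa using nef_zero
    | insert p s hp ih =>
      rw [Finset.sum_insert hp]
      exact nef_add (nef_smul (by exact_mod_cast hD p) (ample_nef hP (pr_ample hX hC hR p))) ih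
  exact this _

/-- an effective rational divisor dominates each of its components -/
theorem eff_sub_nef (hP : Pos X) (hX : Coh X) (hC : Cyc X) (hR : ¬ X.RC) {D : X.Pr →₀ ℚ}
    (hD : ∀ p, 0 ≤ D p) (p : X.Pr) : cls X D - (D p : ℝ) • re (X.cl p) ∈ Nef X := by
  classical
  have h1 : D = D.erase p + Finsupp.single p (D p) := (Finsupp.erase_add_single p D).symm
  have h2 : cls X D - (D p : ℝ) • re (X.cl p) = cls X (D.erase p) := by
    conv_lhs => rw [h1]
    rw [cls_add, cls_single]
    simp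
  rw [h2]
  apply eff_nef hP hX hC hR
  intro q
  by_cases hq : q = p
  · subst hq; simp
  · rw [Finsupp.erase_ne hq]; exact hD q

end Pool.OG
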