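import Mathlib
import Pool.Agent.H84.PrekopaLeindler

/-!
# The Brunn-Minkowski inequality for finite sets of lattice points

If `A`, `B`, `C` are finite sets in `ℤ^3` and `C` contains `A + B + {0,1}^3`, then
`64 |A| |B| ≤ |C|^2`.
-/

open MeasureTheory Set
open scoped ENNReal

namespace Pool.OG.Brm

/-- Coordinatewise integral part of `r x`. -/
noncomputable def fl (r : ℝ) (x : ℝ × (ℝ × ℝ)) : ℤ × (ℤ × ℤ) :=
  (⌊r * x.1⌋, (⌊r * x.2.1⌋, ⌊r * x.2.2⌋))

theorem fl_meas (r : ℝ) : Measurable (fl r) := by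
  unfold fl
  exact (Int.measurable_floor.comp (measurable_const.mul measurable_fst)).prodMk
    ((Int.measurable_floor.comp (measurable_const.mul (measurable_fst.comp measurable_snd))).prodMk
      (Int.measurable_floor.comp (measurable_const.mul (measurable_snd.comp measurable_snd))))

theorem ico (r : ℝ) (hr : 0 < r) (a : ℤ) :
    {x : ℝ | ⌊r * x⌋ = a} = Ico ((a : ℝ) / r) (((a : ℝ) + 1) / r) := by
  ext x
  simp only [mem_ofPred_eq, mem_Ico, Int.floor_eq_iff, div_le_iff₀ hr, lt_div_iff₀ hr, mul_comm r x]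

theorem fl_eq (r : ℝ) (a : ℤ × (ℤ × ℤ)) :
    {x : ℝ × (ℝ × ℝ) | fl r x = a} =
      {x : ℝ | ⌊r * x⌋ = a.1} ×ˢ ({x : ℝ | ⌊r * x⌋ = a.2.1} ×ˢ {x : ℝ | ⌊r * x⌋ = a.2.2}) := by
  ext x
  simp only [mem_ofPred_eq, fl, mem_prod, Prod.ext_iff]

theorem fl_vol (r : ℝ) (hr : 0 < r) (a : ℤ × (ℤ × ℤ)) :
    volume {x : ℝ × (ℝ × ℝ) | fl r x = a} = ENNReal.ofReal (1 / r) ^ 3 := by
  have h : ∀ b : ℤ, volume {x : ℝ | ⌊r * x⌋ = b} = ENNReal.ofReal (1 / r) := by
    intro b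
    rw [ico r hr, Real.volume_Ico]
    congr 1
    ring
  rw [fl_eq, Measure.volume_eq_prod, Measure.prod_prod, Measure.volume_eq_prod, Measure.prod_prod,
    h, h, h]
  ring

theorem fl_card (r : ℝ) (hr : 0 < r) (A : Finset (ℤ × (ℤ × ℤ))) :
    volume {x : ℝ × (ℝ × ℝ) | fl r x ∈ A} = A.card * ENNReal.ofReal (1 / r) ^ 3 := by
  have h : {x : ℝ × (ℝ × ℝ) | fl r x ∈ A} = ⋃ a ∈ A, {x | fl r x = a} := by
    ext x
    simp
  rw [h, measure_biUnion_finset]
  · simp only [fl_vol r hr, Finset.sum_const, nsmul_eq_mul]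
  · intro a _ b _ hab
    refine Set.disjoint_left.2 fun x hx hx' => hab ?_
    exact (Eq.symm hx).trans hx'
  · intro a _
    exact fl_meas r (measurableSet_singleton a)

theorem fl_ms (r : ℝ) (A : Finset (ℤ × (ℤ × ℤ))) :
    MeasurableSet {x : ℝ × (ℝ × ℝ) | fl r x ∈ A} :=
  fl_meas r A.finite_toSet.measurableSet

theorem flo (x y : ℝ) : ∃ e : ℤ, (e = 0 ∨ e = 1) ∧ ⌊x + y⌋ = ⌊x⌋ + ⌊y⌋ + e := by
  have h1 := Int.le_floor_add x y
  have h2 := Int.le_floor_add_floor x y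
  refine ⟨⌊x + y⌋ - (⌊x⌋ + ⌊y⌋), by omega, by ring⟩

theorem bm (A B C : Finset (ℤ × (ℤ × ℤ)))
    (h : ∀ a ∈ A, ∀ b ∈ B, ∀ e : ℤ × (ℤ × ℤ), (e.1 = 0 ∨ e.1 = 1) → (e.2.1 = 0 ∨ e.2.1 = 1) →
      (e.2.2 = 0 ∨ e.2.2 = 1) → a + b + e ∈ C) :
    64 * ((A.card : ℝ) * B.card) ≤ (C.card : ℝ) ^ 2 := by
  have hPL : Pool.Agent.H84.PL (ℝ × (ℝ × ℝ)) :=
    Pool.Agent.H84.PL.prod Pool.Agent.H84.pl_real
      (Pool.Agent.H84.PL.prod Pool.Agent.H84.pl_real Pool.Agent.H84.pl_real)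
  have key := hPL ({x | fl 1 x ∈ A}.indicator 1) ({x | fl 1 x ∈ B}.indicator 1)
    ({x | fl 2 x ∈ C}.indicator 1) (measurable_one.indicator (fl_ms 1 A))
    (measurable_one.indicator (fl_ms 1 B)) (measurable_one.indicator (fl_ms 2 C)) ?_
  · rw [lintegral_indicator_one (fl_ms 1 A), lintegral_indicator_one (fl_ms 1 B),
      lintegral_indicator_one (fl_ms 2 C), fl_card 1 one_pos, fl_card 1 one_pos,
      fl_card 2 two_pos] at key
    have e1 : ENNReal.ofReal (1 / 1) ^ 3 = 1 := by simp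
    rw [e1, mul_one, mul_one] at key
    have e2 : (C.card : ℝ≥0∞) * ENNReal.ofReal (1 / 2) ^ 3 =
        ENNReal.ofReal ((C.card : ℝ) * (1 / 2) ^ 3) := by
      rw [ENNReal.ofReal_mul (by positivity), ENNReal.ofReal_pow (by positivity),
        ENNReal.ofReal_natCast]
    have e3 : (A.card : ℝ≥0∞) * (B.card : ℝ≥0∞) =
        ENNReal.ofReal ((A.card : ℝ) * B.card) := by
      rw [ENNReal.ofReal_mul (by positivity), ENNReal.ofReal_natCast, ENNReal.ofReal_natCast]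
    rw [e2, e3, ← ENNReal.ofReal_pow (by positivity), ENNReal.ofReal_le_ofReal_iff (by positivity)]
      at key
    nlinarith
  · intro x y
    by_cases hx : fl 1 x ∈ A
    · by_cases hy : fl 1 y ∈ B
      · have hm : fl 2 ((2:ℝ)⁻¹ • (x + y)) ∈ C := by
          obtain ⟨e1, he1, h1⟩ := flo x.1 y.1
          obtain ⟨e2, he2, h2⟩ := flo x.2.1 y.2.1
          obtain ⟨e3, he3, h3⟩ := flo x.2.2 y.2.2
          have := h _ hx _ hy (e1, (e2, e3)) he1 he2 he3
          have e : fl 2 ((2:ℝ)⁻¹ • (x + y)) = fl 1 x + fl 1 y + (e1, (e2, e3)) := by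
            simp only [fl, Prod.smul_fst, Prod.smul_snd, Prod.fst_add, Prod.snd_add, smul_eq_mul,
              one_mul, Prod.mk_add_mk, ← h1, ← h2, ← h3]
            simp
          rw [e]
          exact this
        rw [indicator_of_mem (show x ∈ {x | fl 1 x ∈ A} from hx),
          indicator_of_mem (show y ∈ {x | fl 1 x ∈ B} from hy),
          indicator_of_mem (show ((2:ℝ)⁻¹ • (x + y)) ∈ {x | fl 2 x ∈ C} from hm)]
        simp
      · rw [indicator_of_notMem (show y ∉ {x | fl 1 x ∈ B} from hy)]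
        simp
    · rw [indicator_of_notMem (show x ∉ {x | fl 1 x ∈ A} from hx)]
      simp

end Pool.OG.Brm
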