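import Mathlib
import Pool.Agent.H19.OG.Theory
import Pool.Agent.H19.OG.Bas
import Pool.Agent.H20.OG.CUB
import Pool.Agent.H23.OG.AVD
import Pool.Agent.H19.OG.Brm

/-!
# The Hodge index theorem

It is deduced from the Brunn-Minkowski inequality for the sets of valuation vectors.
-/

open Filter Topology

namespace Pool.OG

variable {X : Data}

namespace HodX

/-- the main inequality for one multiple -/
theorem step (S : (Fin X.n → ℤ) → Finset (ℤ × (ℤ × ℤ)))
    (hcard : ∀ D, (S D).card = X.h 0 D)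
    (hadd : ∀ D D', ∀ s ∈ S D, ∀ s' ∈ S D', s + s' ∈ S (D + D'))
    (D E : Fin X.n → ℤ) (m : ℕ)
    (g0 : (0, (0, 0)) ∈ S ((m : ℤ) • (D + E))) (g1 : (1, (0, 0)) ∈ S ((m : ℤ) • (D + E)))
    (g2 : (1, (1, 0)) ∈ S ((m : ℤ) • (D + E))) (g3 : (1, (0, 1)) ∈ S ((m : ℤ) • (D + E)))
    (k : ℕ) :
    64 * ((X.h 0 ((k : ℤ) • D) : ℝ) * X.h 0 ((k : ℤ) • E)) ≤
      (X.h 0 (((k + 3 * m : ℕ) : ℤ) • (D + E)) : ℝ) ^ 2 := by
  have h := Brm.bm (S ((k : ℤ) • D)) (S ((k : ℤ) • E))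
    ((S (((k + 3 * m : ℕ) : ℤ) • (D + E))).image (fun c => c - (2, (0, 0)))) ?_
  · rw [Finset.card_image_of_injective _ (fun a b hab => sub_left_injective hab), hcard, hcard,
      hcard] at h
    exact h
  · rintro a ha b hb ⟨e1, e2, e3⟩ h1 h2 h3
    rw [Finset.mem_image]
    refine ⟨a + b + (2, (0, 0)) + (e1, (e2, e3)), ?_, by
      rw [show a + b + (2, (0, 0)) + (e1, (e2, e3)) - (2, (0, 0)) = a + b + (e1, (e2, e3)) by abel]⟩
    have hab := hadd _ _ a ha b hb
    have u1 : (e1, ((0 : ℤ), (0 : ℤ))) ∈ S ((m : ℤ) • (D + E)) := by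
      rcases h1 with h | h <;> simp only at h <;> subst h <;> assumption
    have u2 : ((1 : ℤ), (e2, (0 : ℤ))) ∈ S ((m : ℤ) • (D + E)) := by
      rcases h2 with h | h <;> simp only at h <;> subst h <;> assumption
    have u3 : ((1 : ℤ), ((0 : ℤ), e3)) ∈ S ((m : ℤ) • (D + E)) := by
      rcases h3 with h | h <;> simp only at h <;> subst h <;> assumption
    have h4 := hadd _ _ _ hab _ (hadd _ _ _ u1 _ (hadd _ _ _ u2 _ u3))
    have e : (k : ℤ) • D + (k : ℤ) • E + ((m : ℤ) • (D + E) + ((m : ℤ) • (D + E) +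
        (m : ℤ) • (D + E))) = ((k + 3 * m : ℕ) : ℤ) • (D + E) := by
      push_cast
      rw [add_smul, mul_smul, smul_add (k : ℤ) D E]
      congr 1
      rw [show (3 : ℤ) = 1 + 1 + 1 by norm_num, add_smul, add_smul, one_smul]
      abel
    rw [e] at h4
    have e' : a + b + ((e1, ((0 : ℤ), (0 : ℤ))) + (((1 : ℤ), (e2, (0 : ℤ))) +
        ((1 : ℤ), ((0 : ℤ), e3)))) = a + b + (2, (0, 0)) + (e1, (e2, e3)) := by
      ext <;> simp <;> ring
    rw [e'] at h4
    exact h4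

/-- the inequality for two ample classes -/
theorem bm_ample (hP : Positivity X) (hC : Cohomology X) (hS : Sections X) (x₀ : X.Pt)
    (D E : Fin X.n → ℤ) (hD : X.Ample D) (hE : X.Ample E) :
    64 * (tri X.t (re D) (re D) (re D) * tri X.t (re E) (re E) (re E)) ≤
      (tri X.t (re D + re E) (re D + re E) (re D + re E)) ^ 2 := by
  have hF : X.Ample (D + E) := by
    rw [hP.kleiman, re_add]
    exact int_add (Red.aint hP hD) (int_nef (Red.aint hP hE))
  obtain ⟨S, hcard, hadd, -, hgen⟩ := hS.val x₀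
  obtain ⟨m, hm, g0, g1, g2, g3⟩ := hgen _ hF
  have key := step S hcard hadd D E m g0 g1 g2 g3
  have hmul : ∀ (A : Fin X.n → ℤ), X.Ample A → ∀ k : ℕ, 0 < k →
      (X.h 0 ((k : ℤ) • A) : ℝ) =
        (k : ℝ) ^ 3 * (tri X.t (re A) (re A) (re A) / 6) + k * (lin X.c2 (re A) / 12) := by
    intro A hA k hk
    have hA' : X.Ample ((k : ℤ) • A) := by
      rw [hP.kleiman, re_smul]
      exact int_smul (by exact_mod_cast hk) (Red.aint hP hA)
    rw [Red.h0F hC hA', re_smul, tri_smul1, tri_smul2, tri_smul3, lin_smul]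
    push_cast
    ring
  rw [← re_add]
  set d := tri X.t (re D) (re D) (re D)
  set e := tri X.t (re E) (re E) (re E)
  set f := tri X.t (re (D + E)) (re (D + E)) (re (D + E))
  set cd := lin X.c2 (re D)
  set ce := lin X.c2 (re E)
  set cf := lin X.c2 (re (D + E))
  have h1 : ∀ n : ℕ, 64 * ((d / 6 + (1 / ((n : ℝ) + 1)) ^ 2 * (cd / 12)) *
      (e / 6 + (1 / ((n : ℝ) + 1)) ^ 2 * (ce / 12))) ≤
      ((1 + 3 * m * (1 / ((n : ℝ) + 1))) ^ 3 * (f / 6) +
        (1 / ((n : ℝ) + 1)) ^ 2 * ((1 + 3 * m * (1 / ((n : ℝ) + 1))) * (cf / 12))) ^ 2 := by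
    intro n
    have h2 := key (n + 1)
    rw [hmul D hD _ n.succ_pos, hmul E hE _ n.succ_pos, hmul _ hF _ (by omega)] at h2
    push_cast at h2
    have hn : (0 : ℝ) < (n : ℝ) + 1 := by positivity
    obtain ⟨N, hN⟩ : ∃ N : ℝ, N = (n : ℝ) + 1 := ⟨_, rfl⟩
    rw [← hN] at h2 hn ⊢
    have e1 : 64 * ((d / 6 + (1 / N) ^ 2 * (cd / 12)) * (e / 6 + (1 / N) ^ 2 * (ce / 12))) =
        (64 * ((N ^ 3 * (d / 6) + N * (cd / 12)) * (N ^ 3 * (e / 6) + N * (ce / 12)))) / N ^ 6 := by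
      field_simp
    have e2 : ((1 + 3 * m * (1 / N)) ^ 3 * (f / 6) +
        (1 / N) ^ 2 * ((1 + 3 * m * (1 / N)) * (cf / 12))) ^ 2 =
        (((N + 3 * m) ^ 3 * (f / 6) + (N + 3 * m) * (cf / 12)) ^ 2) / N ^ 6 := by
      field_simp
    rw [e1, e2]
    exact (div_le_div_iff_of_pos_right (by positivity)).2 h2
  have ht : Tendsto (fun n : ℕ => 1 / ((n : ℝ) + 1)) atTop (𝓝 0) :=
    tendsto_one_div_add_atTop_nhds_zero_nat
  have hl : Tendsto (fun n : ℕ => 64 * ((d / 6 + (1 / ((n : ℝ) + 1)) ^ 2 * (cd / 12)) *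
      (e / 6 + (1 / ((n : ℝ) + 1)) ^ 2 * (ce / 12)))) atTop
      (𝓝 (64 * ((d / 6 + (0 : ℝ) ^ 2 * (cd / 12)) * (e / 6 + (0 : ℝ) ^ 2 * (ce / 12))))) :=
    ((((ht.pow 2).mul_const _).const_add _).mul (((ht.pow 2).mul_const _).const_add _)).const_mul _
  have hr : Tendsto (fun n : ℕ => ((1 + 3 * m * (1 / ((n : ℝ) + 1))) ^ 3 * (f / 6) +
        (1 / ((n : ℝ) + 1)) ^ 2 * ((1 + 3 * m * (1 / ((n : ℝ) + 1))) * (cf / 12))) ^ 2) atTop
      (𝓝 (((1 + 3 * m * (0 : ℝ)) ^ 3 * (f / 6) +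
        (0 : ℝ) ^ 2 * ((1 + 3 * m * (0 : ℝ)) * (cf / 12))) ^ 2)) :=
    (((((ht.const_mul _).const_add _).pow 3).mul_const _).add
      ((ht.pow 2).mul (((ht.const_mul _).const_add _).mul_const _))).pow 2
  have h3 := le_of_tendsto_of_tendsto' hl hr h1
  simp only [mul_zero, add_zero, one_pow, one_mul, ne_eq, OfNat.ofNat_ne_zero, not_false_eq_true,
    zero_pow, zero_mul] at h3
  nlinarith

open MULaux in
/-- the inequality for two interior classes -/
theorem bm_real (hP : Positivity X) (hC : Cohomology X) (hS : Sections X) (x₀ : X.Pt)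
    {u v : Fin X.n → ℝ} (hu : u ∈ interior (Nef X)) (hv : v ∈ interior (Nef X)) :
    64 * (tri X.t u u u * tri X.t v v v) ≤ (tri X.t (u + v) (u + v) (u + v)) ^ 2 := by
  have h1 := ap_tendsto u
  have h2 := ap_tendsto v
  have h3 := h1.add h2
  refine le_of_tendsto_of_tendsto (((tri_tendsto X.t h1 h1 h1).mul
    (tri_tendsto X.t h2 h2 h2)).const_mul 64) ((tri_tendsto X.t h3 h3 h3).pow 2) ?_
  filter_upwards [ap_ample hP hu, ap_ample hP hv] with m hmu hmv
  have h4 := bm_ample hP hC hS x₀ _ _ hmu hmv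
  rw [← smul_add]
  simp only [tri_smul1, tri_smul2, tri_smul3]
  obtain ⟨r, hr⟩ : ∃ r : ℝ, r = 1 / ((m : ℝ) + 1) := ⟨_, rfl⟩
  rw [← hr]
  have hr0 : 0 ≤ r := by rw [hr]; positivity
  have h5 := mul_le_mul_of_nonneg_left h4 (pow_nonneg hr0 6)
  nlinarith

/-- the intersection form is symmetric (first two arguments) -/
theorem symm1 (hX : Positivity X) (x y z : Fin X.n → ℝ) : tri X.t x y z = tri X.t y x z := by
  unfold tri
  rw [Finset.sum_comm]
  refine Finset.sum_congr rfl fun i _ => Finset.sum_congr rfl fun j _ =>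
    Finset.sum_congr rfl fun k _ => ?_
  rw [hX.symm1 j i k]; ring

/-- the intersection form is symmetric (last two arguments) -/
theorem symm2 (hX : Positivity X) (x y z : Fin X.n → ℝ) : tri X.t x y z = tri X.t x z y := by
  unfold tri
  refine Finset.sum_congr rfl fun i _ => ?_
  rw [Finset.sum_comm]
  refine Finset.sum_congr rfl fun j _ =>
    Finset.sum_congr rfl fun k _ => ?_
  rw [hX.symm2 i k j]; ring

end HodX

open HodX in
/-- ROW HOD: the Hodge index theorem, from the Brunn-Minkowski inequality for the sets of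
valuation vectors. -/
theorem hodge_of (hP : Positivity X) (hC : Cohomology X) (hS : Sections X) (x₀ : X.Pt) :
    ∀ H, X.Ample H → ∀ x : Fin X.n → ℝ, tri X.t x (re H) (re H) = 0 →
      tri X.t x x (re H) ≤ 0 := by
  intro H hH x hx
  by_contra hq
  push Not at hq
  have hHi := Red.aint hP hH
  have hh := ample_cube_of hC hP hS x₀ H hH
  set w := re H with hw
  obtain ⟨κ, hκ, h1⟩ := int_dom hHi x
  obtain ⟨κ', hκ', h2⟩ := int_dom hHi (-x)
  obtain ⟨h, hhd⟩ : ∃ h, h = tri X.t w w w := ⟨_, rfl⟩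
  obtain ⟨q, hqd⟩ : ∃ q, q = tri X.t x x w := ⟨_, rfl⟩
  obtain ⟨c, hcd⟩ : ∃ c, c = tri X.t x x x := ⟨_, rfl⟩
  rw [← hhd] at hh
  rw [← hqd] at hq
  set N := κ + κ' + 1 + c ^ 2 / (6 * h * q) with hN
  have hNc : 0 ≤ c ^ 2 / (6 * h * q) := by positivity
  have hN1 : 1 ≤ N := by linarith
  have hN2 : c ^ 2 < N * (6 * h * q) := by
    have : c ^ 2 / (6 * h * q) < N := by linarith
    rwa [div_lt_iff₀ (by positivity)] at this
  have i1 : N • w - x ∈ interior (Nef X) := by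
    have : N • w - x = (N - κ) • w + (κ • w - x) := by
      rw [sub_smul]; abel
    rw [this]
    exact int_add (int_smul (by linarith) hHi) h1
  have i2 : N • w + x ∈ interior (Nef X) := by
    have : N • w + x = (N - κ') • w + (κ' • w - -x) := by
      rw [sub_smul]; abel
    rw [this]
    exact int_add (int_smul (by linarith) hHi) h2
  have h3 := bm_real hP hC hS x₀ i2 i1
  have e0 : N • w + x + (N • w - x) = (2 * N) • w := by
    rw [mul_smul, two_smul]; abel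
  have s1 : tri X.t w x w = 0 := by rw [symm1 hP]; exact hx
  have s2 : tri X.t w w x = 0 := by rw [symm2 hP]; exact s1
  have s3 : tri X.t x w x = q := by rw [hqd]; exact symm2 hP _ _ _
  have s4 : tri X.t w x x = q := by rw [symm1 hP]; exact s3
  have e1 : tri X.t (N • w + x) (N • w + x) (N • w + x) = N ^ 3 * h + 3 * N * q + c := by
    simp only [tri_add1, tri_add2, tri_add3, tri_smul1, tri_smul2, tri_smul3, s1, s2, s3, s4, hx,
      ← hhd, ← hqd, ← hcd]
    ring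
  have e2 : tri X.t (N • w - x) (N • w - x) (N • w - x) = N ^ 3 * h + 3 * N * q - c := by
    simp only [tri_sub1, tri_sub2, tri_sub3, tri_smul1, tri_smul2, tri_smul3, s1, s2, s3, s4, hx,
      ← hhd, ← hqd, ← hcd]
    ring
  rw [e0, e1, e2] at h3
  simp only [tri_smul1, tri_smul2, tri_smul3, ← hhd] at h3
  have h4 : 6 * N ^ 4 * h * q + 9 * N ^ 2 * q ^ 2 ≤ c ^ 2 := by nlinarith
  have h5 : N * (6 * h * q) ≤ 6 * N ^ 4 * h * q := by
    have : N ≤ N ^ 4 := le_self_pow₀ hN1 (by norm_num)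
    nlinarith [mul_pos hh hq]
  nlinarith [mul_nonneg (sq_nonneg N) (sq_nonneg q)]

end Pool.OG
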