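import Mathlib
import Pool.Agent.H19.OG.Defs
import Pool.Agent.H19.OG.Bas

/-!
Step 2, geometry: the plane spanned by `L` and an ample class.  The statement that a nef
integral class of cube zero has `c2 · D = 0` (Step 1) enters as a hypothesis.
-/

namespace Pool.OG

variable {X : Data}

/-- expansion of the cube -/
theorem cube_expand (hX : Pos X) (x y : Fin X.n → ℝ) (s : ℝ) :
    tri X.t (x + s • y) (x + s • y) (x + s • y) =
      tri X.t x x x + 3 * tri X.t y x x * s + 3 * tri X.t y y x * s ^ 2 +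
        tri X.t y y y * s ^ 3 := by
  simp only [tri_add1, tri_add2, tri_add3, tri_smul1, tri_smul2, tri_smul3]
  have h1 : tri X.t x y x = tri X.t y x x := tri_symm1 hX _ _ _
  have h2 : tri X.t x x y = tri X.t y x x := by rw [tri_symm2 hX, h1]
  have h3 : tri X.t y x y = tri X.t y y x := tri_symm2 hX _ _ _
  have h4 : tri X.t x y y = tri X.t y y x := by rw [tri_symm1 hX, h3]
  rw [h1, h2, h3, h4]
  ring

/-- expansion of the product of a square with `y` -/
theorem sq_expand (hX : Pos X) (x y : Fin X.n → ℝ) (s : ℝ) :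
    tri X.t (x + s • y) (x + s • y) y =
      tri X.t y x x + 2 * tri X.t y y x * s + tri X.t y y y * s ^ 2 := by
  simp only [tri_add1, tri_add2, tri_smul1, tri_smul2]
  have h2 : tri X.t x x y = tri X.t y x x := by rw [tri_symm2 hX, tri_symm1 hX]
  have h3 : tri X.t y x y = tri X.t y y x := tri_symm2 hX _ _ _
  have h4 : tri X.t x y y = tri X.t y y x := by rw [tri_symm1 hX, h3]
  rw [h2, h3, h4]
  ring

/-- a nonzero class has positive cube if some multiple of it is effective -/
theorem sub_int (hP : Pos X) (hC : Coh X) (hR : ¬ X.RC) {P Q : Fin X.n → ℤ}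
    (hPn : re P ∈ Nef X) (hQn : re Q ∈ Nef X)
    (h : 3 * tri X.t (re P) (re P) (re Q) < tri X.t (re P) (re P) (re P)) :
    re (P - Q) ∈ interior (Nef X) := by
  obtain ⟨m, hm, h0⟩ := hC.siu P Q hPn hQn h
  have hne : (m : ℤ) • (P - Q) ≠ 0 := by
    intro hz
    have hPQ : P - Q = 0 := by
      rcases smul_eq_zero.1 hz with h' | h'
      · exfalso; have : m = 0 := by exact_mod_cast h'
        omega
      · exact h'
    have : Q = P := (sub_eq_zero.1 hPQ).symm
    subst this
    have := hP.nef_mul _ hQn _ hQn _ hQn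
    linarith
  have ha := eff_ample hC hR hne h0
  have hi := ample_int hP ha
  rw [re_smul] at hi
  have hm' : (0 : ℝ) < ((m : ℤ) : ℝ) := by exact_mod_cast hm
  have h2 := int_smul (inv_pos.2 hm') hi
  rwa [smul_smul, inv_mul_cancel₀ hm'.ne', one_smul] at h2

/-- a nef integral class which is not ample has cube zero -/
theorem nef_cube (hP : Pos X) (hC : Coh X) (hR : ¬ X.RC) {L : Fin X.n → ℤ}
    (hLn : re L ∈ Nef X) (hLa : ¬ X.Ample L) : tri X.t (re L) (re L) (re L) = 0 := by
  have h0 := hP.nef_mul _ hLn _ hLn _ hLn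
  by_contra hne
  have hpos : 0 < tri X.t (re L) (re L) (re L) := lt_of_le_of_ne h0 (Ne.symm hne)
  obtain ⟨H, hH⟩ := hP.projective
  have hHn := ample_nef hP hH
  obtain ⟨m, hm⟩ := exists_nat_gt
    (3 * tri X.t (re L) (re L) (re H) / tri X.t (re L) (re L) (re L) + 1)
  have hm1 : (1 : ℝ) < m := by
    have : 0 ≤ 3 * tri X.t (re L) (re L) (re H) / tri X.t (re L) (re L) (re L) :=
      div_nonneg (mul_nonneg (by norm_num) (hP.nef_mul _ hLn _ hLn _ hHn)) h0
    linarith
  have hm2 : 3 * tri X.t (re L) (re L) (re H) < m * tri X.t (re L) (re L) (re L) := by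
    rw [← div_lt_iff₀ hpos]; linarith
  have hPn : re ((m : ℤ) • L) ∈ Nef X := by
    rw [re_smul]; exact nef_smul (by positivity) hLn
  have hi := sub_int hP hC hR hPn hHn (by
    simp only [re_smul, tri_smul1, tri_smul2, tri_smul3]
    push_cast
    have : (0 : ℝ) < (m : ℝ) * m := by positivity
    nlinarith [mul_lt_mul_of_pos_left hm2 this])
  have h2 := int_add hi hHn
  rw [re_sub, sub_add_cancel, re_smul] at h2
  have hm' : (0 : ℝ) < ((m : ℤ) : ℝ) := by push_cast; linarith
  have h3 := int_smul (inv_pos.2 hm') h2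
  rw [smul_smul, inv_mul_cancel₀ hm'.ne', one_smul] at h3
  exact hLa ((hP.kleiman L).2 h3)

/-- the point where the ray `H - t L` leaves the nef cone -/
theorem exit (hP : Pos X) (hC : Coh X) (hR : ¬ X.RC) {L H : Fin X.n → ℤ} (hL0 : L ≠ 0)
    (hLn : re L ∈ Nef X) (hH : X.Ample H) :
    ∃ τ : ℝ, 0 < τ ∧ re H - τ • re L ∈ Nef X ∧
      tri X.t (re H - τ • re L) (re H - τ • re L) (re H - τ • re L) = 0 ∧
      ∀ s, 0 ≤ s → s < τ → re H - s • re L ∈ interior (Nef X) := by
  have hHi := ample_int hP hH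
  have hHn := ample_nef hP hH
  obtain ⟨C, hCpos⟩ : ∃ C, 0 < lin (X.dg C) (re L) := by
    by_contra hcon
    push Not at hcon
    exact hL0 (hP.numerical L fun C => le_antisymm (hcon C) (hLn C))
  set S : Set ℝ := {s | 0 ≤ s ∧ re H - s • re L ∈ Nef X} with hS
  have hSc : IsClosed S := by
    have h1 : IsClosed {s : ℝ | re H - s • re L ∈ Nef X} :=
      nef_closed.preimage (by fun_prop : Continuous fun s : ℝ => re H - s • re L)
    exact (isClosed_le continuous_const continuous_id).inter h1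
  have hS0 : (0 : ℝ) ∈ S := ⟨le_rfl, by simpa using hHn⟩
  have hSb : BddAbove S := by
    refine ⟨lin (X.dg C) (re H) / lin (X.dg C) (re L), ?_⟩
    rintro s ⟨-, hs⟩
    have := hs C
    rw [lin_sub, lin_smul] at this
    rw [le_div_iff₀ hCpos]; linarith
  set τ := sSup S with hτ
  have hτS : τ ∈ S := hSc.csSup_mem ⟨0, hS0⟩ hSb
  have hτpos : 0 < τ := by
    obtain ⟨ε, hε, h⟩ := int_absorb hHi (re L)
    exact lt_of_lt_of_le hε (le_csSup hSb ⟨hε.le, int_nef h⟩)
  have hint : ∀ s, 0 ≤ s → s < τ → re H - s • re L ∈ interior (Nef X) := by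
    intro s hs0 hs
    have h1 : re H - s • re L = (1 - s / τ) • re H + (s / τ) • (re H - τ • re L) := by
      rw [smul_sub, smul_smul, div_mul_cancel₀ _ hτpos.ne', sub_smul, one_smul]
      abel
    rw [h1]
    refine int_add (int_smul ?_ hHi) (nef_smul (div_nonneg hs0 hτpos.le) hτS.2)
    rw [sub_pos, div_lt_one hτpos]; exact hs
  refine ⟨τ, hτpos, hτS.2, ?_, hint⟩
  have h0 := hP.nef_mul _ hτS.2 _ hτS.2 _ hτS.2
  by_contra hne
  have hpos : 0 < tri X.t (re H - τ • re L) (re H - τ • re L) (re H - τ • re L) :=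
    lt_of_le_of_ne h0 (Ne.symm hne)
  -- continuity
  set c0 := tri X.t (re H) (re H) (re H)
  set c1 := tri X.t (re L) (re H) (re H)
  set c2 := tri X.t (re L) (re L) (re H)
  set c3 := tri X.t (re L) (re L) (re L)
  have hcube : ∀ s : ℝ, tri X.t (re H - s • re L) (re H - s • re L) (re H - s • re L) =
      c0 - 3 * c1 * s + 3 * c2 * s ^ 2 - c3 * s ^ 3 := by
    intro s
    have := cube_expand hP (re H) (re L) (-s)
    rw [neg_smul, ← sub_eq_add_neg] at this
    rw [this]; ring
  have hsq : ∀ s : ℝ, tri X.t (re H - s • re L) (re H - s • re L) (re L) =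
      c1 - 2 * c2 * s + c3 * s ^ 2 := by
    intro s
    have := sq_expand hP (re H) (re L) (-s)
    rw [neg_smul, ← sub_eq_add_neg] at this
    rw [this]; ring
  set G : ℝ × ℝ → ℝ := fun p => (c0 - 3 * c1 * p.1 + 3 * c2 * p.1 ^ 2 - c3 * p.1 ^ 3) -
    3 * (p.2 - p.1) * (c1 - 2 * c2 * p.1 + c3 * p.1 ^ 2) with hG
  have hGc : Continuous G := by fun_prop
  have hG0 : 0 < G (τ, τ) := by
    simp only [hG, sub_self, mul_zero, zero_mul, sub_zero]
    rw [← hcube]; exact hpos
  have ho : IsOpen (G ⁻¹' Set.Ioi 0) := isOpen_Ioi.preimage hGc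
  obtain ⟨δ, hδ, hball⟩ := Metric.isOpen_iff.1 ho (τ, τ) hG0
  obtain ⟨t1, ht1a, ht1b⟩ := exists_rat_btwn (show max 0 (τ - δ) < τ from
    max_lt hτpos (by linarith))
  obtain ⟨t2, ht2a, ht2b⟩ := exists_rat_btwn (show τ < τ + δ by linarith)
  have ht10 : (0 : ℝ) < t1 := lt_of_le_of_lt (le_max_left _ _) ht1a
  have ht1δ : τ - δ < (t1 : ℝ) := lt_of_le_of_lt (le_max_right _ _) ht1a
  have hGt : 0 < G ((t1 : ℝ), (t2 : ℝ)) := by
    apply hball
    rw [Metric.mem_ball, Prod.dist_eq, max_lt_iff, Real.dist_eq, Real.dist_eq, abs_lt, abs_lt]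
    constructor <;> constructor <;> simp only <;> linarith
  -- integral classes
  set N : ℕ := t1.den * t2.den with hN
  have hNpos : (0 : ℝ) < N := by
    rw [hN]; exact_mod_cast Nat.mul_pos t1.pos t2.pos
  set r1 : ℤ := t1.num * t2.den
  set r2 : ℤ := t2.num * t1.den
  have hr1 : (r1 : ℝ) = N * t1 := by
    have h1 : (t1 : ℝ) * t1.den = t1.num := by exact_mod_cast Rat.mul_den_eq_num t1
    simp only [r1, hN]; push_cast; rw [← h1]; ring
  have hr2 : (r2 : ℝ) = N * t2 := by
    have h1 : (t2 : ℝ) * t2.den = t2.num := by exact_mod_cast Rat.mul_den_eq_num t2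
    simp only [r2, hN]; push_cast; rw [← h1]; ring
  have hPe : re ((N : ℤ) • H - r1 • L) = (N : ℝ) • (re H - (t1 : ℝ) • re L) := by
    rw [re_sub, re_smul, re_smul, hr1, smul_sub, smul_smul]; push_cast; rfl
  have hQe : re ((r2 - r1) • L) = ((N : ℝ) * (t2 - t1)) • re L := by
    rw [re_smul]; congr 1; push_cast; rw [hr1, hr2]; ring
  have h12 : (t1 : ℝ) < t2 := by linarith
  have hPn : re ((N : ℤ) • H - r1 • L) ∈ Nef X := by
    rw [hPe]; exact nef_smul hNpos.le (int_nef (hint _ ht10.le ht1b))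
  have hQn : re ((r2 - r1) • L) ∈ Nef X := by
    rw [hQe]; exact nef_smul (mul_nonneg hNpos.le (by linarith)) hLn
  have hi := sub_int hP hC hR hPn hQn (by
    rw [hPe, hQe]
    simp only [tri_smul1, tri_smul2, tri_smul3]
    rw [hcube, hsq]
    simp only [hG] at hGt
    have hN3 : (0 : ℝ) < (N : ℝ) * N * N := by positivity
    nlinarith [mul_pos hN3 hGt])
  have hPQ : re ((N : ℤ) • H - r1 • L - (r2 - r1) • L) = (N : ℝ) • (re H - (t2 : ℝ) • re L) := by
    rw [re_sub, hPe, hQe, smul_sub, smul_sub, smul_smul, smul_smul, mul_sub, sub_smul]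
    abel
  rw [hPQ] at hi
  have h3 := int_smul (inv_pos.2 hNpos) hi
  rw [smul_smul, inv_mul_cancel₀ hNpos.ne', one_smul] at h3
  have h4 : (t2 : ℝ) ≤ τ := le_csSup hSb ⟨by linarith, int_nef h3⟩
  linarith

/-- Step 2, geometry: the second boundary ray of the plane spanned by `L` and `H` is spanned by
`H + θ L`, `θ` a quadratic irrationality. -/
theorem plane_of (hP : Pos X) (hC : Coh X) (hR : ¬ X.RC)
    (one : ∀ D : Fin X.n → ℤ, D ≠ 0 → re D ∈ Nef X →
      tri X.t (re D) (re D) (re D) = 0 → lin X.c2 (re D) = 0)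
    (L : Fin X.n → ℤ) (hL0 : L ≠ 0)
    (hLn : re L ∈ Nef X) (hLa : ¬ X.Ample L) (H : Fin X.n → ℤ) (hH : X.Ample H) :
    ∃ (A B C : ℤ) (θ : ℝ), 0 < A ∧ 0 < B ∧ 0 < C ∧
      (A : ℝ) = 3 * tri X.t (re L) (re L) (re H) ∧ (B : ℝ) = 3 * tri X.t (re L) (re H) (re H) ∧
      (C : ℝ) = tri X.t (re H) (re H) (re H) ∧ tri X.t (re L) (re L) (re L) = 0 ∧
      lin X.c2 (re L) = 0 ∧ Irrational θ ∧ θ < 0 ∧ A * θ ^ 2 + B * θ + C = 0 ∧
      0 < 2 * A * θ + B ∧ re H + θ • re L ∈ Nef X ∧
      tri X.t (re H + θ • re L) (re H + θ • re L) (re H + θ • re L) = 0 := by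
  have hHn := ample_nef hP hH
  have hHi := ample_int hP hH
  have hL3 := nef_cube hP hC hR hLn hLa
  have hLc := one L hL0 hLn hL3
  have hHc := hP.c2_pos H hH
  have hH3 := hP.ample_cube H hH
  obtain ⟨τ, hτ, hτn, hτ3, hτi⟩ := exit hP hC hR hL0 hLn hH
  set c0 := tri X.t (re H) (re H) (re H) with hc0
  set c1 := tri X.t (re L) (re H) (re H) with hc1
  set c2 := tri X.t (re L) (re L) (re H) with hc2
  have hcube : ∀ s : ℝ, tri X.t (re H - s • re L) (re H - s • re L) (re H - s • re L) =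
      c0 - 3 * c1 * s + 3 * c2 * s ^ 2 := by
    intro s
    have := cube_expand hP (re H) (re L) (-s)
    rw [neg_smul, ← sub_eq_add_neg, hL3] at this
    rw [this]; ring
  have hc1n : 0 ≤ c1 := hP.nef_mul _ hLn _ hHn _ hHn
  have hc2n : 0 ≤ c2 := hP.nef_mul _ hLn _ hLn _ hHn
  have hcube0 : c0 - 3 * c1 * τ + 3 * c2 * τ ^ 2 = 0 := by rw [← hcube]; exact hτ3
  -- integrality
  have hA : ((3 * triZ X.t L L H : ℤ) : ℝ) = 3 * c2 := by
    push_cast; rw [← tri_re]
  have hB : ((3 * triZ X.t L H H : ℤ) : ℝ) = 3 * c1 := by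
    push_cast; rw [← tri_re]
  have hCC : ((triZ X.t H H H : ℤ) : ℝ) = c0 := by rw [← tri_re]
  -- nef integral classes in the plane of the form q H + p L with q > 0 and cube zero do not exist
  have key : ∀ q p : ℤ, 0 < q → re (q • H + p • L) ∈ Nef X →
      tri X.t (re (q • H + p • L)) (re (q • H + p • L)) (re (q • H + p • L)) = 0 → False := by
    intro q p hq hn h3
    have hq' : (0 : ℝ) < q := by exact_mod_cast hq
    have hne : q • H + p • L ≠ 0 := by
      intro hz
      have h1 : re (q • H + p • L) = 0 := by rw [hz, re_zero]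
      rw [re_add, re_smul, re_smul] at h1
      have h2 : (q : ℝ) • re H = -((p : ℝ) • re L) := eq_neg_of_add_eq_zero_left h1
      have h4 : tri X.t ((q : ℝ) • re H) ((q : ℝ) • re H) ((q : ℝ) • re H) = 0 := by
        rw [h2, ← neg_smul]
        simp only [tri_smul1, tri_smul2, tri_smul3, hL3, mul_zero]
      simp only [tri_smul1, tri_smul2, tri_smul3] at h4
      have : 0 < (q : ℝ) * (q * (q * c0)) := by positivity
      linarith
    have h5 := one _ hne hn h3
    rw [re_add, re_smul, re_smul, lin_add, lin_smul, lin_smul, hLc, mul_zero, add_zero] at h5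
    have : 0 < (q : ℝ) * lin X.c2 (re H) := mul_pos hq' hHc
    linarith
  have hc2pos : 0 < c2 := by
    rcases hc2n.lt_or_eq with h | h
    · exact h
    exfalso
    have hB0 : c0 = 3 * c1 * τ := by rw [← h] at hcube0; linarith
    have hc1pos : 0 < c1 := by
      rcases hc1n.lt_or_eq with h' | h'
      · exact h'
      · rw [← h'] at hB0; simp at hB0; linarith
    have hBpos : 0 < 3 * triZ X.t L H H := by
      have : (0 : ℝ) < ((3 * triZ X.t L H H : ℤ) : ℝ) := by rw [hB]; linarith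
      exact_mod_cast this
    have he : re ((3 * triZ X.t L H H) • H + (-triZ X.t H H H) • L) =
        (3 * c1) • (re H - τ • re L) := by
      rw [re_add, re_smul, re_smul, hB]
      rw [show ((-triZ X.t H H H : ℤ) : ℝ) = -c0 by push_cast; rw [hCC]]
      rw [smul_sub, smul_smul, hB0, neg_smul, ← sub_eq_add_neg]
    apply key _ _ hBpos
    · rw [he]; exact nef_smul (by linarith) hτn
    · rw [he]; simp only [tri_smul1, tri_smul2, tri_smul3, hτ3, mul_zero]
  have hc1pos : 0 < c1 := by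
    obtain ⟨κ, hκ, hk⟩ := int_dom hHi (re L)
    have := hP.nef_mul _ hLn _ hHn _ hk
    rw [tri_sub3, tri_smul3] at this
    have h2 : tri X.t (re L) (re H) (re L) = c2 := tri_symm2 hP _ _ _
    rw [h2] at this
    have h3 : 0 < κ * c1 := by linarith
    exact (mul_pos_iff_of_pos_left hκ).1 h3
  have hApos : 0 < 3 * triZ X.t L L H := by
    have : (0 : ℝ) < ((3 * triZ X.t L L H : ℤ) : ℝ) := by rw [hA]; linarith
    exact_mod_cast this
  have hBpos : 0 < 3 * triZ X.t L H H := by
    have : (0 : ℝ) < ((3 * triZ X.t L H H : ℤ) : ℝ) := by rw [hB]; linarith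
    exact_mod_cast this
  have hCpos : 0 < triZ X.t H H H := by
    have : (0 : ℝ) < ((triZ X.t H H H : ℤ) : ℝ) := by rw [hCC]; exact hH3
    exact_mod_cast this
  have hθe : re H + (-τ) • re L = re H - τ • re L := by rw [neg_smul, ← sub_eq_add_neg]
  have hirr : Irrational (-τ) := by
    rintro ⟨r, hr⟩
    have hden : (0 : ℝ) < (r.den : ℝ) := by exact_mod_cast r.pos
    have h1 : ((r : ℚ) : ℝ) * r.den = r.num := by exact_mod_cast Rat.mul_den_eq_num r
    have he : re ((r.den : ℤ) • H + r.num • L) = (r.den : ℝ) • (re H - τ • re L) := by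
      rw [re_add, re_smul, re_smul, ← hθe, smul_add, smul_smul, ← h1, hr]
      push_cast
      rw [mul_comm (-τ)]
    apply key r.den r.num (by exact_mod_cast r.pos)
    · rw [he]; exact nef_smul hden.le hτn
    · rw [he]; simp only [tri_smul1, tri_smul2, tri_smul3, hτ3, mul_zero]
  refine ⟨3 * triZ X.t L L H, 3 * triZ X.t L H H, triZ X.t H H H, -τ, hApos, hBpos, hCpos,
    hA, hB, hCC, hL3, hLc, hirr, by linarith, ?_, ?_, by rw [hθe]; exact hτn,
    by rw [hθe]; exact hτ3⟩
  · rw [hA, hB, hCC]; linarith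
  · rw [hA, hB]
    have hne : 2 * (3 * c2) * (-τ) + 3 * c1 ≠ 0 := by
      intro h
      apply hirr
      refine ⟨-(triZ X.t L H H : ℚ) / (2 * (triZ X.t L L H : ℚ)), ?_⟩
      have e1 : ((triZ X.t L H H : ℤ) : ℝ) = c1 := (tri_re X.t L H H).symm
      have e2 : ((triZ X.t L L H : ℤ) : ℝ) = c2 := (tri_re X.t L L H).symm
      push_cast
      rw [e1, e2]
      rw [div_eq_iff (by positivity)]
      linarith
    have hge : 0 ≤ 2 * (3 * c2) * (-τ) + 3 * c1 := by
      by_contra hlt
      push Not at hlt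
      set e := min τ (-(2 * (3 * c2) * (-τ) + 3 * c1) / (2 * (3 * c2))) with he
      have hepos : 0 < e := lt_min hτ (div_pos (by linarith) (by linarith))
      have he1 : e ≤ τ := min_le_left _ _
      have he2 : e * (2 * (3 * c2)) ≤ -(2 * (3 * c2) * (-τ) + 3 * c1) := by
        rw [← le_div_iff₀ (by linarith)]; exact min_le_right _ _
      have hi := hτi (τ - e) (by linarith) (by linarith)
      have hp := int_pos hP hi hi hi
      rw [hcube] at hp
      have hq : c0 - 3 * c1 * (τ - e) + 3 * c2 * (τ - e) ^ 2 =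
          e * (3 * c2 * e + (2 * (3 * c2) * (-τ) + 3 * c1)) := by
        linear_combination hcube0
      rw [hq] at hp
      have := (mul_pos_iff_of_pos_left hepos).1 hp
      linarith
    exact lt_of_le_of_ne hge (Ne.symm hne)

end Pool.OG
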