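import Mathlib
import Pool.Agent.H19.OG.Defs

/-!
The situation in which the argument takes place: a rational plane with an irrational boundary ray
of the nef cone.
-/

namespace Pool.OG

/-- `H` is ample, `G` is nef, and the ray `H - s G` leaves the nef cone at the irrational
`s = τ`; the cube of `M = H - τ G` is zero, and `c2 · M > 0`, `M ^ 2 · G > 0`. -/
structure Ray (X : Data) (H G : Fin X.n → ℤ) (τ : ℝ) : Prop where
  ample : X.Ample H
  nef : re G ∈ Nef X
  irr : Irrational τ
  pos : 0 < τ
  mem : re H - τ • re G ∈ Nef X
  out : ∀ s, τ < s → re H - s • re G ∉ Nef X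
  cube : tri X.t (re H - τ • re G) (re H - τ • re G) (re H - τ • re G) = 0
  c2 : 0 < lin X.c2 (re H - τ • re G)
  sq : 0 < tri X.t (re H - τ • re G) (re H - τ • re G) (re G)

end Pool.OG
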