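import Mathlib
import Pool.Agent.H19.OG.Defs
import Pool.Agent.H19.OG.Bas
import Pool.Agent.H19.OG.Pln
import Pool.Agent.H19.OG.Ray
import Pool.Agent.H19.OG.Lem

/-!
Existence of a rational plane with an irrational boundary ray of the nef cone.
-/

namespace Pool.OG

variable {X : Data}

/-- an integral linear form, evaluated at an integral class, is an integer -/
theorem lin_int {n : ℕ} (c : Fin n → ℤ) (D : Fin n → ℤ) : ∃ m : ℤ, lin c (re D) = m :=
  ⟨∑ i, c i * D i, by simp [lin, re]⟩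

/-- beyond the exit point the ray is not in the nef cone -/
theorem exit_out (hP : Pos X) {H G : Fin X.n → ℤ} (hH : X.Ample H) {τ : ℝ} (hτ : 0 < τ)
    (hτ3 : tri X.t (re H - τ • re G) (re H - τ • re G) (re H - τ • re G) = 0) (s : ℝ)
    (hs : τ < s) : re H - s • re G ∉ Nef X := by
  intro hmem
  have hs0 : 0 < s := hτ.trans hs
  have h1 : re H - τ • re G = ((s - τ) / s) • re H + (τ / s) • (re H - s • re G) := by
    rw [smul_sub, smul_smul, div_mul_cancel₀ _ hs0.ne']
    have : ((s - τ) / s) • re H + ((τ / s) • re H - τ • re G) =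
        (((s - τ) / s) + τ / s) • re H - τ • re G := by
      rw [add_smul]; abel
    rw [this]
    have h2 : (s - τ) / s + τ / s = 1 := by field_simp; ring
    rw [h2, one_smul]
  have hi : re H - τ • re G ∈ interior (Nef X) := by
    rw [h1]
    exact int_add (int_smul (div_pos (by linarith) hs0) (ample_int hP hH))
      (nef_smul (div_nonneg hτ.le hs0.le) hmem)
  have := int_pos hP hi hi hi
  linarith

/-- an irrational exit point gives a ray -/
theorem ray_of (hP : Pos X) (hC : Coh X) (hR : ¬ X.RC) {H G : Fin X.n → ℤ} (hH : X.Ample H)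
    (hG : G ≠ 0) (hn : re G ∈ Nef X) {τ : ℝ} (hτ : 0 < τ) (hirr : Irrational τ)
    (hmem : re H - τ • re G ∈ Nef X)
    (hτ3 : tri X.t (re H - τ • re G) (re H - τ • re G) (re H - τ • re G) = 0)
    (hint : ∀ s, 0 ≤ s → s < τ → re H - s • re G ∈ interior (Nef X)) : Ray X H G τ := by
  have hHi := ample_int hP hH
  refine ⟨hH, hn, hirr, hτ, hmem, fun s hs => exit_out hP hH hτ hτ3 s hs, hτ3, ?_, ?_⟩
  · -- `c2 M > 0`
    by_contra hcon
    push Not at hcon
    obtain ⟨p, hp⟩ := lin_int X.c2 H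
    obtain ⟨q, hq⟩ := lin_int X.c2 G
    have hp0 := hP.c2_pos H hH
    have hq0 := c2_nonneg hP hn
    rw [lin_sub, lin_smul, hp, hq] at hcon
    rw [hp] at hp0
    rw [hq] at hq0
    have hqpos : (0 : ℝ) < q := by
      rcases hq0.lt_or_eq with h | h
      · exact h
      · rw [← h] at hcon; linarith
    have hle : (p : ℝ) / q ≤ τ := by rw [div_le_iff₀ hqpos]; linarith
    have hne : (p : ℝ) / q ≠ τ := by
      intro h
      exact hirr ⟨(p : ℚ) / q, by push_cast; exact h⟩
    have hi := hint _ (div_nonneg hp0.le hqpos.le) (lt_of_le_of_ne hle hne)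
    have h2 : X.Ample (q • H - p • G) := by
      rw [hP.kleiman]
      have : re (q • H - p • G) = (q : ℝ) • (re H - ((p : ℝ) / q) • re G) := by
        rw [re_sub, re_smul, re_smul, smul_sub, smul_smul, mul_div_cancel₀ _ hqpos.ne']
      rw [this]
      exact int_smul hqpos hi
    have h3 := hP.c2_pos _ h2
    rw [re_sub, re_smul, re_smul, lin_sub, lin_smul, lin_smul, hp, hq] at h3
    linarith
  · -- `M ^ 2 G > 0`
    rcases (hP.nef_mul _ hmem _ hmem _ hn).lt_or_eq with h | h
    · exact h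
    exfalso
    have e1 := cube_expand hP (re H) (re G) (-τ)
    have e2 := sq_expand hP (re H) (re G) (-τ)
    rw [neg_smul, ← sub_eq_add_neg] at e1 e2
    rw [hτ3] at e1
    rw [← h] at e2
    have hc1 := nef_pos' hP hC hR hG hn hH
    have hc0 := hP.ample_cube H hH
    have hc3 := hP.nef_mul _ hn _ hn _ hn
    rw [tri_re] at e1 e2 hc1 hc0 hc3
    rw [tri_re, tri_re] at e1
    rw [tri_re, tri_re] at e2
    set c0 : ℤ := triZ X.t H H H with hc0d
    set c1 : ℤ := triZ X.t G H H
    set c2 : ℤ := triZ X.t G G H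
    set c3 : ℤ := triZ X.t G G G
    rw [tri_re] at e1
    have key : (2 * τ) * ((c2 : ℝ) ^ 2 - c1 * c3) = c1 * c2 - c0 * c3 := by
      linear_combination (-(c3 : ℝ)) * e1 + (-((c3 : ℝ) * τ - c2)) * e2
    have hint0 : c2 ^ 2 - c1 * c3 = 0 := by
      by_contra hne
      have hne' : ((c2 : ℝ) ^ 2 - c1 * c3) ≠ 0 := by exact_mod_cast hne
      apply hirr
      refine ⟨((c1 * c2 - c0 * c3 : ℤ) : ℚ) / (2 * ((c2 ^ 2 - c1 * c3 : ℤ) : ℚ)), ?_⟩
      push_cast
      rw [div_eq_iff (mul_ne_zero two_ne_zero hne')]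
      linarith
    have hint0' : (c2 : ℝ) ^ 2 = c1 * c3 := by
      have : ((c2 ^ 2 - c1 * c3 : ℤ) : ℝ) = 0 := by exact_mod_cast hint0
      push_cast at this
      linarith
    rcases hc3.lt_or_eq with h3 | h3
    · have h4 : ((c3 : ℝ) * τ - c2) ^ 2 = 0 := by
        nlinarith
      have h5 : (c3 : ℝ) * τ - c2 = 0 := by
        exact pow_eq_zero_iff (two_ne_zero) |>.1 h4
      apply hirr
      refine ⟨(c2 : ℚ) / c3, ?_⟩
      push_cast
      rw [div_eq_iff h3.ne']
      linarith
    · rw [← h3] at hint0' e2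
      have : (c2 : ℝ) = 0 := by
        have : (c2 : ℝ) ^ 2 = 0 := by linarith
        exact pow_eq_zero_iff (two_ne_zero) |>.1 this
      rw [this] at e2
      linarith

/-- a ray through a nef class which is not ample -/
theorem ray_nef (hX : Facts X) (hR : ¬ X.RC) {L : Fin X.n → ℤ} (hL0 : L ≠ 0)
    (hLn : re L ∈ Nef X) (hLa : ¬ X.Ample L) : ∃ H G τ, Ray X H G τ := by
  have hP := hX.pos
  have hC := hX.coh
  obtain ⟨H, hH⟩ := hP.projective
  have hHn := ample_nef hP hH
  have hL3 := nef_cube hP hC hR hLn hLa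
  have hLH := nef_pos' hP hC hR hL0 hLn hH
  have hLc := lemmaA hX hR H hH L hL0 hLa (hP.nef_mul _ hLn _ hLn _ hHn) hLH
  rw [hL3] at hLc
  obtain ⟨τ, hτ, hτn, hτ3, hτi⟩ := exit hP hC hR hL0 hLn hH
  refine ⟨H, L, τ, ray_of hP hC hR hH hL0 hLn hτ ?_ hτn hτ3 hτi⟩
  rintro ⟨r, hr⟩
  have hden : (0 : ℝ) < (r.den : ℝ) := by exact_mod_cast r.pos
  have h1 : ((r : ℚ) : ℝ) * r.den = r.num := by exact_mod_cast Rat.mul_den_eq_num r
  have hnum : (0 : ℝ) < (r.num : ℝ) := by rw [← h1, hr]; positivity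
  have he : re ((r.den : ℤ) • H - r.num • L) = (r.den : ℝ) • (re H - τ • re L) := by
    rw [re_sub, re_smul, re_smul, smul_sub, smul_smul, ← h1, hr]
    push_cast
    rw [mul_comm τ]
  have hn : re ((r.den : ℤ) • H - r.num • L) ∈ Nef X := by
    rw [he]; exact nef_smul hden.le hτn
  have h3 : tri X.t (re ((r.den : ℤ) • H - r.num • L)) (re ((r.den : ℤ) • H - r.num • L))
      (re ((r.den : ℤ) • H - r.num • L)) = 0 := by
    rw [he]; simp only [tri_smul1, tri_smul2, tri_smul3, hτ3, mul_zero]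
  have hna : ¬ X.Ample ((r.den : ℤ) • H - r.num • L) := fun h => by
    have := hP.ample_cube _ h
    linarith
  have hne : (r.den : ℤ) • H - r.num • L ≠ 0 := by
    intro hz
    have h2 : re ((r.den : ℤ) • H - r.num • L) = 0 := by rw [hz, re_zero]
    rw [he] at h2
    have h4 : re H - τ • re L = 0 := by
      rcases smul_eq_zero.1 h2 with h | h
      · linarith
      · exact h
    have h5 : re H = τ • re L := sub_eq_zero.1 h4
    have h6 := hP.ample_cube H hH
    rw [h5] at h6
    simp only [tri_smul1, tri_smul2, tri_smul3, hL3, mul_zero] at h6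
    exact lt_irrefl _ h6
  have hwH := nef_pos' hP hC hR hne hn hH
  have hc := lemmaA hX hR H hH _ hne hna (hP.nef_mul _ hn _ hn _ hHn) hwH
  rw [h3, re_sub, re_smul, re_smul, lin_sub, lin_smul, lin_smul] at hc
  have hcH := hP.c2_pos H hH
  have h7 : 0 < (r.den : ℝ) * lin X.c2 (re H) := mul_pos hden hcH
  have h8 : (r.num : ℝ) * lin X.c2 (re L) ≤ 0 :=
    mul_nonpos_of_nonneg_of_nonpos hnum.le (by linarith)
  push_cast at hc
  linarith

/-- ROW RAY. -/
theorem ray (hX : Facts X) (hR : ¬ X.RC)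
    (h : 2 ≤ X.n ∨ ∃ L : Fin X.n → ℤ, L ≠ 0 ∧ re L ∈ Nef X ∧ ¬ X.Ample L) :
    ∃ H G τ, Ray X H G τ := by
  classical
  rcases h with h | ⟨L, hL0, hLn, hLa⟩
  swap
  · exact ray_nef hX hR hL0 hLn hLa
  have hP := hX.pos
  have hC := hX.coh
  obtain ⟨H, hH⟩ := hP.projective
  have hHi := ample_int hP hH
  have hHne : H ≠ 0 := by
    rintro rfl
    have := hP.ample_cube _ hH
    rw [re_zero, tri_zero1] at this
    exact lt_irrefl _ this
  obtain ⟨i, hi⟩ : ∃ i, H i ≠ 0 := by
    by_contra hcon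
    push Not at hcon
    exact hHne (funext hcon)
  obtain ⟨j, hj⟩ : ∃ j : Fin X.n, j ≠ i := by
    by_cases h0 : i = ⟨0, by omega⟩
    · exact ⟨⟨1, by omega⟩, by rw [h0]; simp⟩
    · exact ⟨⟨0, by omega⟩, fun h => h0 h.symm⟩
  -- the class `G`
  obtain ⟨κ, hκ, hk⟩ := int_dom hHi (-re (Pi.single j (1 : ℤ) : Fin X.n → ℤ))
  obtain ⟨N, hN⟩ := exists_nat_gt κ
  set G : Fin X.n → ℤ := (N : ℤ) • H + Pi.single j 1 with hGd
  have hGa : X.Ample G := by
    rw [hP.kleiman, hGd, re_add, re_smul]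
    have : ((N : ℤ) : ℝ) • re H + re (Pi.single j (1 : ℤ) : Fin X.n → ℤ) =
        ((N : ℝ) - κ) • re H + (κ • re H - -re (Pi.single j (1 : ℤ) : Fin X.n → ℤ)) := by
      rw [sub_smul, sub_neg_eq_add]
      push_cast
      abel
    rw [this]
    exact int_add (int_smul (by linarith) hHi) hk
  have hprop : ∀ q p : ℤ, q ≠ 0 → q • H - p • G ≠ 0 := by
    intro q p hq hz
    have h1 := congrFun hz i
    have h2 := congrFun hz j
    simp only [hGd, Pi.sub_apply, Pi.smul_apply, Pi.add_apply, smul_eq_mul, Pi.zero_apply,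
      Pi.single_eq_same, Pi.single_eq_of_ne (Ne.symm hj), add_zero] at h1 h2
    have h3 : (q - p * N) * H i = 0 := by linarith
    have h4 : q - p * N = 0 := by
      rcases mul_eq_zero.1 h3 with h | h
      · exact h
      · exact absurd h hi
    have h5 : p = 0 := by
      have : (q - p * N) * H j = p := by linarith
      rw [h4, zero_mul] at this
      exact this.symm
    rw [h5] at h4
    apply hq
    linarith
  have hGne : G ≠ 0 := by
    intro h
    have h1 := hP.ample_cube _ hGa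
    rw [h, re_zero, tri_zero1] at h1
    exact lt_irrefl _ h1
  have hGn := ample_nef hP hGa
  obtain ⟨τ, hτ, hτn, hτ3, hτi⟩ := exit hP hC hR hGne hGn hH
  by_cases hirr : Irrational τ
  · exact ⟨H, G, τ, ray_of hP hC hR hH hGne hGn hτ hirr hτn hτ3 hτi⟩
  · unfold Irrational at hirr
    push Not at hirr
    obtain ⟨r, hr⟩ := hirr
    have hden : (0 : ℝ) < (r.den : ℝ) := by exact_mod_cast r.pos
    have h1 : ((r : ℚ) : ℝ) * r.den = r.num := by exact_mod_cast Rat.mul_den_eq_num r
    have he : re ((r.den : ℤ) • H - r.num • G) = (r.den : ℝ) • (re H - τ • re G) := by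
      rw [re_sub, re_smul, re_smul, smul_sub, smul_smul, ← h1, hr]
      push_cast
      rw [mul_comm τ]
    refine ray_nef hX hR (L := (r.den : ℤ) • H - r.num • G) (hprop _ _ ?_) ?_ ?_
    · exact_mod_cast r.den_ne_zero
    · rw [he]; exact nef_smul hden.le hτn
    · intro ha
      have h3 := hP.ample_cube _ ha
      rw [he] at h3
      simp only [tri_smul1, tri_smul2, tri_smul3, hτ3, mul_zero] at h3
      exact lt_irrefl _ h3

end Pool.OG
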