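import Mathlib
import Pool.Agent.H19.OG.Defs
import Pool.Agent.H19.OG.Bas
import Pool.Agent.H19.OG.Pln
import Pool.Agent.H19.OG.Ray
import Pool.Agent.H19.OG.RayProof
import Pool.Agent.H20.OG.WID
import Pool.Agent.H23.OG.F6
import Pool.Agent.H22.OG.F7

/-!
The chain argument along the classes given by the slow continued fraction.
-/

namespace Pool.OG

variable {X : Data}

/-- the classes of the plane in terms of the boundary class `M = H - τ G` -/
theorem re_plane {n : ℕ} (H G : Fin n → ℤ) (τ : ℝ) (a b : ℤ) :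
    re (a • H - b • G) = (a : ℝ) • (re H - τ • re G) + (a * τ - b) • re G := by
  rw [re_sub, re_smul, re_smul]
  ext i
  simp only [Pi.sub_apply, Pi.add_apply, Pi.smul_apply, smul_eq_mul]
  ring

/-- positive combinations of `M` and `G` are interior -/
theorem plane_int (hP : Pos X) {H G : Fin X.n → ℤ} {τ : ℝ} (hr : Ray X H G τ) {a y : ℝ}
    (ha : 0 < a) (hy : 0 < y) :
    a • (re H - τ • re G) + y • re G ∈ interior (Nef X) := by
  have hτ := hr.pos
  have hε : 0 < min a (y / τ) := lt_min ha (div_pos hy hτ)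
  set ε := min a (y / τ) with he
  have h1 : ε ≤ a := min_le_left _ _
  have h2 : ε * τ ≤ y := by
    rw [← le_div_iff₀ hτ]; exact min_le_right _ _
  have h3 : a • (re H - τ • re G) + y • re G =
      ε • re H + ((a - ε) • (re H - τ • re G) + (y - ε * τ) • re G) := by
    ext i
    simp only [Pi.add_apply, Pi.sub_apply, Pi.smul_apply, smul_eq_mul]
    ring
  rw [h3]
  exact int_add (int_smul hε (ample_int hP hr.ample))
    (nef_add (nef_smul (by linarith) hr.mem) (nef_smul (by linarith) hr.nef))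

/-- the classes inside are ample -/
theorem plane_ample (hP : Pos X) {H G : Fin X.n → ℤ} {τ : ℝ} (hr : Ray X H G τ) {a b : ℤ}
    (ha : 0 < a) (hb : b < a * τ) : X.Ample (a • H - b • G) := by
  rw [hP.kleiman, re_plane H G τ]
  exact plane_int hP hr (by exact_mod_cast ha) (by linarith)

/-- the cube of a class of the plane -/
theorem plane_cube (hP : Pos X) {H G : Fin X.n → ℤ} {τ : ℝ} (hr : Ray X H G τ) (a b : ℤ) :
    tri X.t (re (a • H - b • G)) (re (a • H - b • G)) (re (a • H - b • G)) =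
      3 * a ^ 2 * (a * τ - b) * tri X.t (re H - τ • re G) (re H - τ • re G) (re G) +
      3 * a * (a * τ - b) ^ 2 * tri X.t (re G) (re G) (re H - τ • re G) +
      (a * τ - b) ^ 3 * tri X.t (re G) (re G) (re G) := by
  rw [re_plane H G τ, cube_expand hP]
  simp only [tri_smul1, tri_smul2, tri_smul3]
  rw [hr.cube]
  have h1 : tri X.t (re G) (re H - τ • re G) (re H - τ • re G) =
      tri X.t (re H - τ • re G) (re H - τ • re G) (re G) := by
    rw [tri_symm1 hP, tri_symm2 hP]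
  rw [h1]
  ring

/-- the second Chern class of a class of the plane -/
theorem plane_c2 {H G : Fin X.n → ℤ} {τ : ℝ} (a b : ℤ) :
    lin X.c2 (re (a • H - b • G)) = a * lin X.c2 (re H - τ • re G) +
      (a * τ - b) * lin X.c2 (re G) := by
  rw [re_plane H G τ, lin_add, lin_smul, lin_smul]

/-- the boundary class is not orthogonal to a curve -/
theorem ray_curve (hP : Pos X) {H G : Fin X.n → ℤ} {τ : ℝ} (hr : Ray X H G τ) (C : X.Cv) :
    lin (X.dg C) (re H - τ • re G) ≠ 0 := by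
  intro hD
  obtain ⟨h, hh⟩ := lin_int (X.dg C) H
  obtain ⟨l, hl⟩ := lin_int (X.dg C) G
  have hpos := hP.ample_deg H hr.ample C
  rw [lin_sub, lin_smul, hh, hl] at hD
  rw [hh] at hpos
  have hl0 : (l : ℝ) ≠ 0 := by
    intro h0
    rw [h0] at hD
    simp only [mul_zero, sub_zero] at hD
    rw [hD] at hpos
    exact lt_irrefl _ hpos
  apply hr.irr
  refine ⟨(h : ℚ) / l, ?_⟩
  push_cast
  rw [div_eq_iff hl0]
  linarith

/-- ROW FIN, from the rows S5, COF. -/
theorem chain_of (hX : Facts X) (hR : ¬ X.RC)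
    (coef3 : ∀ (D : Fin X.n → ℤ), X.Ample D → ∀ (E : X.Pr →₀ ℚ), Eff X E D → ∀ p : X.Pr,
      (E p : ℝ) ^ 3 ≤ tri X.t (re D) (re D) (re D))
    (step5one : ∀ (V : Set X.Pt), VG X V → ∀ (D : Fin X.n → ℤ), X.Ample D → ∀ (A T R : ℝ),
      0 ≤ A → 0 ≤ R → (∀ E, Eff X E D → ∀ p, (E p : ℝ) ≤ A) →
      3 * (T + 1) ^ 2 < lin X.c2 (re D) / 12 → A < T →
      tri X.t (re D) (re D) (re D) < R * (T - A) ^ 2 →
      ∀ x ∈ V, ∃ C, 0 < X.mq C x ∧ lin (X.dg C) (re D) ≤ R * X.mq C x)
    {H G : Fin X.n → ℤ} {τ : ℝ} (hr : Ray X H G τ)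
    (a b : ℕ → ℤ) (lam K : ℝ) (hlam : 1 ≤ lam) (hK : 0 < K) (ha : ∀ k, 0 < a k)
    (hb : ∀ k, b k < a k * τ) (hab : ∀ k, a k * (a k * τ - b k) ≤ K)
    (hmon : ∀ k, (a k : ℝ) ≤ lam * a (k + 1))
    (hmon' : ∀ k, a k * τ - b k ≤ lam * (a (k + 1) * τ - b (k + 1)))
    (hlim : Filter.Tendsto (fun k => (a k : ℝ)) Filter.atTop Filter.atTop) : False := by
  have hP := hX.pos
  obtain ⟨V, hV⟩ := hX.vg
  set M := re H - τ • re G with hMd
  set m1 := tri X.t M M (re G) with hm1
  set m2 := tri X.t (re G) (re G) M with hm2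
  set m3 := tri X.t (re G) (re G) (re G) with hm3
  set c := lin X.c2 M with hc
  have hc0 : 0 < c := hr.c2
  have hm10 : 0 < m1 := hr.sq
  have hm20 : 0 ≤ m2 := hP.nef_mul _ hr.nef _ hr.nef _ hr.mem
  have hm30 : 0 ≤ m3 := hP.nef_mul _ hr.nef _ hr.nef _ hr.nef
  have hcG : 0 ≤ lin X.c2 (re G) := c2_nonneg hP hr.nef
  have ha1 : ∀ k, (1 : ℝ) ≤ a k := fun k => by exact_mod_cast ha k
  have ha0 : ∀ k, (0 : ℝ) < a k := fun k => by linarith [ha1 k]
  have hy0 : ∀ k, 0 < a k * τ - b k := fun k => by linarith [hb k]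
  have hyK : ∀ k, a k * τ - b k ≤ K := fun k => by
    have := hab k
    nlinarith [ha1 k, hy0 k]
  have hamp : ∀ k, X.Ample (a k • H - b k • G) := fun k => plane_ample hP hr (ha k) (hb k)
  -- the cube
  obtain ⟨q, hq⟩ : ∃ q : ℝ, q = 3 * K * m1 + 3 * K ^ 2 * m2 + K ^ 3 * m3 := ⟨_, rfl⟩
  have hq0 : 0 < q := by
    rw [hq]
    have := mul_pos hK hm10
    positivity
  have hcube : ∀ k, tri X.t (re (a k • H - b k • G)) (re (a k • H - b k • G))
      (re (a k • H - b k • G)) ≤ q * a k := by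
    intro k
    rw [plane_cube hP hr, ← hMd, ← hm1, ← hm2, ← hm3, hq]
    set y := (a k : ℝ) * τ - b k with hy
    have hy' : 0 < y := hy0 k
    have hyk : y ≤ K := hyK k
    have hayk : (a k : ℝ) * y ≤ K := hab k
    have e1 : 3 * (a k : ℝ) ^ 2 * y * m1 ≤ 3 * K * m1 * a k := by
      have : (a k : ℝ) * y * (3 * a k * m1) ≤ K * (3 * a k * m1) :=
        mul_le_mul_of_nonneg_right hayk (by have := ha0 k; positivity)
      linarith
    have hyy : y ^ 2 ≤ K ^ 2 := pow_le_pow_left₀ hy'.le hyk 2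
    have hyyy : y ^ 3 ≤ K ^ 3 := pow_le_pow_left₀ hy'.le hyk 3
    have e2 : 3 * (a k : ℝ) * y ^ 2 * m2 ≤ 3 * K ^ 2 * m2 * a k := by
      have : y ^ 2 * (3 * a k * m2) ≤ K ^ 2 * (3 * a k * m2) :=
        mul_le_mul_of_nonneg_right hyy (by have := ha0 k; positivity)
      linarith
    have e3 : y ^ 3 * m3 ≤ K ^ 3 * m3 * a k := by
      have h1 : y ^ 3 * m3 ≤ K ^ 3 * m3 := mul_le_mul_of_nonneg_right hyyy hm30
      have h2 : K ^ 3 * m3 * 1 ≤ K ^ 3 * m3 * a k :=
        mul_le_mul_of_nonneg_left (ha1 k) (by positivity)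
      linarith
    linarith
  have hc2 : ∀ k, c * a k ≤ lin X.c2 (re (a k • H - b k • G)) := by
    intro k
    rw [plane_c2 (τ := τ), ← hMd, ← hc]
    have := mul_nonneg (hy0 k).le hcG
    linarith
  -- constants
  obtain ⟨C₃, hC₃⟩ : ∃ C₃ : ℝ, C₃ = 1248 * q / c + 1 := ⟨_, rfl⟩
  have hC₃0 : 0 < C₃ := by rw [hC₃]; positivity
  have hlC : 0 < lam * C₃ := mul_pos (by linarith) hC₃0
  obtain ⟨T0, hT0⟩ : ∃ T0 : ℝ, T0 = max (max 1 (2496 * q / c)) (4 * (lam * C₃)) := ⟨_, rfl⟩
  obtain ⟨N, hN⟩ := (hlim.eventually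
    (Filter.eventually_ge_atTop (312 * T0 ^ 2 / c))).exists_forall_of_atTop
  have hT00 : 1 ≤ T0 := by rw [hT0]; exact (le_max_left _ _).trans (le_max_left _ _)
  have hT01 : 2496 * q / c ≤ T0 := by rw [hT0]; exact (le_max_right _ _).trans (le_max_left _ _)
  have hT02 : 4 * (lam * C₃) ≤ T0 := by rw [hT0]; exact le_max_right _ _
  -- the width
  have key : ∀ k, N ≤ k → ∃ T : ℝ, T0 ≤ T ∧ T ^ 2 = c * a k / 312 ∧
      3 * (T + 1) ^ 2 < lin X.c2 (re (a k • H - b k • G)) / 12 ∧
      ∀ E, Eff X E (a k • H - b k • G) → ∀ p, (E p : ℝ) ≤ T / 2 := by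
    intro k hk
    have h1 := hN k hk
    rw [div_le_iff₀ hc0] at h1
    obtain ⟨T, hT⟩ : ∃ T : ℝ, T = Real.sqrt (c * a k / 312) := ⟨_, rfl⟩
    have hpos : 0 ≤ c * a k / 312 := by have := ha0 k; positivity
    have hT2 : T ^ 2 = c * a k / 312 := by rw [hT, Real.sq_sqrt hpos]
    have hTT : T0 ≤ T := by
      rw [hT]
      apply Real.le_sqrt_of_sq_le
      linarith
    have hT1 : 1 ≤ T := hT00.trans hTT
    refine ⟨T, hTT, hT2, ?_, ?_⟩
    · have h2 := hc2 k
      have h3 : (T + 1) ^ 2 ≤ 4 * T ^ 2 := by nlinarith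
      have h4 : 0 < c * a k := mul_pos hc0 (ha0 k)
      rw [hT2] at h3
      linarith
    · intro E hE p
      by_contra hcon
      push Not at hcon
      have h2 := coef3 _ (hamp k) E hE p
      have h3 : (T / 2) ^ 3 < (E p : ℝ) ^ 3 :=
        pow_lt_pow_left₀ hcon (by linarith) three_ne_zero
      have h4 : q * a k ≤ (T / 2) ^ 3 := by
        have h5 : (T / 2) ^ 3 = T * (c * a k) / 2496 := by
          have : (T / 2) ^ 3 = T * T ^ 2 / 8 := by ring
          rw [this, hT2]; ring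
        rw [h5]
        have h6 : 2496 * q ≤ T * c := by
          rw [← div_le_iff₀ hc0]; exact hT01.trans hTT
        have := mul_le_mul_of_nonneg_right h6 (ha0 k).le
        linarith
      have := hcube k
      linarith
  refine step7 hX V hV M (fun k => a k • H - b k • G) (fun k => (a k : ℝ)) lam C₃ N hamp hlam
    hC₃0 hlim ?_ ?_ hr.mem (fun C => ray_curve hP hr C) ?_ ?_
  · intro k
    have h1 : lam • re (a (k + 1) • H - b (k + 1) • G) - re (a k • H - b k • G) =
        (lam * a (k + 1) - a k) • M +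
          (lam * (a (k + 1) * τ - b (k + 1)) - (a k * τ - b k)) • re G := by
      rw [re_plane H G τ, re_plane H G τ, ← hMd]
      ext i
      simp only [Pi.add_apply, Pi.sub_apply, Pi.smul_apply, smul_eq_mul]
      ring
    rw [h1]
    exact nef_add (nef_smul (by have := hmon k; linarith) hr.mem)
      (nef_smul (by have := hmon' k; linarith) hr.nef)
  · intro k
    have h1 : re (a k • H - b k • G) - (a k : ℝ) • M = (a k * τ - b k) • re G := by
      rw [re_plane H G τ, ← hMd]; abel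
    rw [h1]
    exact nef_smul (hy0 k).le hr.nef
  · intro k hk x hx
    obtain ⟨T, hTT, hT2, hTc, hTE⟩ := key k hk
    have hT1 : 1 ≤ T := hT00.trans hTT
    refine step5one V hV _ (hamp k) (T / 2) T C₃ (by linarith) hC₃0.le hTE hTc (by linarith) ?_
      x hx
    have h1 : (T - T / 2) ^ 2 = c * a k / 1248 := by
      have : (T - T / 2) ^ 2 = T ^ 2 / 4 := by ring
      rw [this, hT2]; ring
    rw [h1, hC₃]
    have h2 : (1248 * q / c + 1) * (c * a k / 1248) = q * a k + c * a k / 1248 := by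
      field_simp
    rw [h2]
    have := hcube k
    have h3 : 0 < c * a k := mul_pos hc0 (ha0 k)
    linarith
  · intro k hk x hx D hD hDd
    obtain ⟨T, hTT, hT2, hTc, hTE⟩ := key k hk
    have hT1 : 1 ≤ T := hT00.trans hTT
    refine step6 hX hR V hV _ (hamp k) (T / 2) (lam * C₃) hTE x hx ?_ D hD hDd
    by_contra hcon
    push Not at hcon
    have hw := width hX _ (hamp k) x T (by linarith) (fun E hE => by
      have := hcon E hE
      linarith)
    linarith

end Pool.OG
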