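import Mathlib
import Pool.Agent.H19.OG.Defs
import Pool.Agent.H19.OG.Bas
import Pool.Agent.H19.OG.Pln
import Pool.Agent.H19.OG.Ray
import Pool.Agent.H19.OG.Lem
import Pool.Agent.H19.OG.Fin

/-!
The integral classes of the plane outside the nef cone do not approximate the boundary ray well.
-/

namespace Pool.OG

variable {X : Data}

/-- ROW OUT. -/
theorem outside (hX : Facts X) (hR : ¬ X.RC) {H G : Fin X.n → ℤ} {τ : ℝ} (hr : Ray X H G τ) :
    ∃ c : ℝ, 0 < c ∧ ∀ a b : ℤ, 0 < a → a * τ < b → c ≤ a * (b - a * τ) := by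
  have hP := hX.pos
  have hτ := hr.pos
  set M := re H - τ • re G with hMd
  set m1 := tri X.t M M (re G) with hm1
  set m2 := tri X.t (re G) (re G) M with hm2
  set m3 := tri X.t (re G) (re G) (re G) with hm3
  set c := lin X.c2 M with hc
  set cG := lin X.c2 (re G) with hcG
  have hc0 : 0 < c := hr.c2
  have hm10 : 0 < m1 := hr.sq
  have hm20 : 0 ≤ m2 := hP.nef_mul _ hr.nef _ hr.nef _ hr.mem
  have hm30 : 0 ≤ m3 := hP.nef_mul _ hr.nef _ hr.nef _ hr.nef
  have hcG0 : 0 ≤ cG := c2_nonneg hP hr.nef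
  have hM3 : tri X.t M M M = 0 := hr.cube
  have hτm : 0 < τ * m1 := mul_pos hτ hm10
  have d1 : 0 < 6 * m1 + 2 * m3 + cG + 1 := by positivity
  have d2 : 0 < 2 * (m1 + τ * m2) + (m1 + 2 * τ * m2 + τ ^ 2 * m3) + 1 := by positivity
  obtain ⟨ε, hε⟩ : ∃ ε : ℝ, ε = min 1 (min (c / (6 * m1 + 2 * m3 + cG + 1))
    (τ * m1 / (2 * (m1 + τ * m2) + (m1 + 2 * τ * m2 + τ ^ 2 * m3) + 1))) := ⟨_, rfl⟩
  have hε0 : 0 < ε := by
    rw [hε]
    exact lt_min one_pos (lt_min (div_pos hc0 d1) (div_pos hτm d2))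
  have hε1 : ε ≤ 1 := by rw [hε]; exact min_le_left _ _
  have hε2 : ε * (6 * m1 + 2 * m3 + cG + 1) ≤ c := by
    rw [← le_div_iff₀ d1, hε]; exact (min_le_right _ _).trans (min_le_left _ _)
  have hε3 : ε * (2 * (m1 + τ * m2) + (m1 + 2 * τ * m2 + τ ^ 2 * m3) + 1) ≤ τ * m1 := by
    rw [← le_div_iff₀ d2, hε]; exact (min_le_right _ _).trans (min_le_right _ _)
  refine ⟨ε, hε0, fun a b ha hab => ?_⟩
  by_contra hcon
  push Not at hcon
  have ha1 : (1 : ℝ) ≤ a := by exact_mod_cast ha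
  obtain ⟨s, hs⟩ : ∃ s : ℝ, s = b - a * τ := ⟨_, rfl⟩
  rw [← hs] at hcon
  have hs0 : 0 < s := by rw [hs]; linarith
  have hsε : s < ε := by nlinarith
  have hneg : (a : ℝ) * τ - b = -s := by rw [hs]; ring
  -- the numbers
  have hcube := plane_cube hP hr a b
  rw [hneg, ← hMd, ← hm1, ← hm2, ← hm3] at hcube
  have hc2 := plane_c2 (X := X) (H := H) (G := G) (τ := τ) a b
  rw [hneg, ← hMd, ← hc, ← hcG] at hc2
  have hre : re (a • H - b • G) = (a : ℝ) • M + (-s) • re G := by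
    rw [re_plane H G τ, hneg, ← hMd]
  have hH : re H = M + τ • re G := by rw [hMd]; abel
  have e1 : tri X.t M (re G) M = m1 := by rw [tri_symm2 hP]
  have e2 : tri X.t (re G) M M = m1 := by rw [tri_symm1 hP, e1]
  have e3 : tri X.t (re G) M (re G) = m2 := by rw [tri_symm2 hP]
  have e4 : tri X.t M (re G) (re G) = m2 := by rw [tri_symm1 hP, e3]
  have hww : tri X.t (re (a • H - b • G)) (re (a • H - b • G)) (re H) =
      -2 * (a * s) * m1 + s ^ 2 * m2 + τ * (a ^ 2 * m1 - 2 * (a * s) * m2 + s ^ 2 * m3) := by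
    rw [hre, hH]
    simp only [tri_add1, tri_add2, tri_add3, tri_smul1, tri_smul2, tri_smul3, hM3, e1, e2, e3,
      e4, ← hm1, ← hm2, ← hm3]
    ring
  have hw1 : tri X.t (re (a • H - b • G)) (re H) (re H) =
      a * (2 * τ * m1 + τ ^ 2 * m2) - s * (m1 + 2 * τ * m2 + τ ^ 2 * m3) := by
    rw [hre, hH]
    simp only [tri_add1, tri_add2, tri_add3, tri_smul1, tri_smul2, tri_smul3, hM3, e1, e2, e3,
      e4, ← hm1, ← hm2, ← hm3]
    ring
  have has : (a : ℝ) * s < ε := hcon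
  have has0 : 0 < (a : ℝ) * s := by positivity
  -- `w H ^ 2 > 0`
  have hw1pos : 0 < tri X.t (re (a • H - b • G)) (re H) (re H) := by
    rw [hw1]
    have t1 : 1 * (2 * τ * m1 + τ ^ 2 * m2) ≤ a * (2 * τ * m1 + τ ^ 2 * m2) :=
      mul_le_mul_of_nonneg_right ha1 (by positivity)
    have t2 : s * (m1 + 2 * τ * m2 + τ ^ 2 * m3) ≤ ε * (m1 + 2 * τ * m2 + τ ^ 2 * m3) :=
      mul_le_mul_of_nonneg_right hsε.le (by positivity)
    have t3 : 0 ≤ τ ^ 2 * m2 := by positivity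
    have t4 : 0 ≤ ε * (2 * (m1 + τ * m2) + 1) := by positivity
    nlinarith
  -- `w ^ 2 H ≥ 0`
  have hwwpos : 0 ≤ tri X.t (re (a • H - b • G)) (re (a • H - b • G)) (re H) := by
    rw [hww]
    have t1 : (1 : ℝ) ≤ a ^ 2 := by nlinarith
    have t2 : 1 * (τ * m1) ≤ a ^ 2 * (τ * m1) := mul_le_mul_of_nonneg_right t1 hτm.le
    have t3 : (a * s) * (2 * (m1 + τ * m2)) ≤ ε * (2 * (m1 + τ * m2)) :=
      mul_le_mul_of_nonneg_right has.le (by positivity)
    have t4 : 0 ≤ s ^ 2 * m2 := by positivity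
    have t5 : 0 ≤ τ * (s ^ 2 * m3) := by positivity
    have t6 : 0 ≤ ε * ((m1 + 2 * τ * m2 + τ ^ 2 * m3) + 1) := by positivity
    nlinarith
  -- the Euler characteristic is positive
  have hchi : 0 < 2 * tri X.t (re (a • H - b • G)) (re (a • H - b • G)) (re (a • H - b • G)) +
      lin X.c2 (re (a • H - b • G)) := by
    rw [hcube, hc2]
    have t1 : (a * s) * (6 * a * m1) ≤ ε * (6 * a * m1) :=
      mul_le_mul_of_nonneg_right has.le (by positivity)
    have t2 : s ^ 3 ≤ ε := by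
      have h1 : s ≤ 1 := hsε.le.trans hε1
      have h2 : s ^ 3 ≤ s := by
        have : s ^ 3 = s * s ^ 2 := by ring
        rw [this]
        have h3 : s ^ 2 ≤ 1 := by nlinarith
        nlinarith
      linarith
    have t3 : s ^ 3 * (2 * m3) ≤ ε * (2 * m3) := mul_le_mul_of_nonneg_right t2 (by positivity)
    have t4 : s * cG ≤ ε * cG := mul_le_mul_of_nonneg_right hsε.le hcG0
    have t5 : 0 ≤ a * s ^ 2 * m2 := by positivity
    have t6 : 1 * (c - ε * (6 * m1)) ≤ a * (c - ε * (6 * m1)) := by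
      refine mul_le_mul_of_nonneg_right ha1 ?_
      have : 0 ≤ ε * (2 * m3 + cG + 1) := by positivity
      linarith
    have t7 : 0 < ε := hε0
    nlinarith
  have hne : a • H - b • G ≠ 0 := by
    intro h
    rw [h, re_zero, tri_zero1] at hw1pos
    exact lt_irrefl _ hw1pos
  have hna : ¬ X.Ample (a • H - b • G) := by
    intro h
    have hn := ample_nef hP h
    have ha0 : (0 : ℝ) < a := by linarith
    have h1 : re H - ((b : ℝ) / a) • re G = (a : ℝ)⁻¹ • re (a • H - b • G) := by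
      rw [re_sub, re_smul, re_smul, smul_sub, smul_smul, smul_smul, inv_mul_cancel₀ ha0.ne',
        one_smul]
      congr 2
      field_simp
    refine hr.out ((b : ℝ) / a) ?_ ?_
    · rw [lt_div_iff₀ ha0]; linarith
    · rw [h1]
      exact nef_smul (inv_pos.2 ha0).le hn
  have := lemmaA hX hR H hr.ample _ hne hna hwwpos hw1pos
  linarith

end Pool.OG
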