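import Mathlib
import Pool.Agent.H19.OG.Defs
import Pool.Agent.H19.OG.Bas
import Pool.Agent.H19.OG.Pln
import Pool.Agent.H19.OG.Ray
import Pool.Agent.H19.OG.Lem
import Pool.Agent.H19.OG.RayProof
import Pool.Agent.H19.OG.Fin
import Pool.Agent.H19.OG.Out
import Pool.Agent.H23.OG.S5
import Pool.Agent.H53.OG.INS
import Pool.Agent.H20.OG.SLO

/-!
The main theorem over the facts: a rational curve exists if the Picard number is at least two, or
if some nef divisor class is neither zero nor ample.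
-/

namespace Pool.OG

variable {X : Data}

/-- Curves of small degree, with the facts of the two preceding rows filled in. -/
theorem inside (hX : Facts X) (hR : ¬ X.RC) {H G : Fin X.n → ℤ} {τ : ℝ} (hr : Ray X H G τ) :
    ∃ c : ℝ, 0 < c ∧ ∀ a b : ℤ, 0 < a → b < a * τ → c ≤ a * (a * τ - b) :=
  inside_of hX hr (fun D hD E hE p => coef3 hX hR D hD E hE p)
    (fun V hV D hD A T R h1 h2 h3 h4 h5 h6 => step5one hX hR V hV D hD A T R h1 h2 h3 h4 h5 h6) hR

/-- The slow chain of approximations leads to a contradiction. -/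
theorem chain (hX : Facts X) (hR : ¬ X.RC) {H G : Fin X.n → ℤ} {τ : ℝ} (hr : Ray X H G τ)
    (a b : ℕ → ℤ) (lam K : ℝ) (hlam : 1 ≤ lam) (hK : 0 < K) (ha : ∀ k, 0 < a k)
    (hb : ∀ k, b k < a k * τ) (hab : ∀ k, a k * (a k * τ - b k) ≤ K)
    (hmon : ∀ k, (a k : ℝ) ≤ lam * a (k + 1))
    (hmon' : ∀ k, a k * τ - b k ≤ lam * (a (k + 1) * τ - b (k + 1)))
    (hlim : Filter.Tendsto (fun k => (a k : ℝ)) Filter.atTop Filter.atTop) : False :=
  chain_of hX hR (fun D hD E hE p => coef3 hX hR D hD E hE p)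
    (fun V hV D hD A T R h1 h2 h3 h4 h5 h6 => step5one hX hR V hV D hD A T R h1 h2 h3 h4 h5 h6)
    hr a b lam K hlam hK ha hb hab hmon hmon' hlim

/-- A threefold with the facts carries a rational curve as soon as its Picard number is at least
two or it has a nef divisor class which is neither zero nor ample. -/
theorem rational_curve (hX : Facts X)
    (h : 2 ≤ X.n ∨ ∃ L : Fin X.n → ℤ, L ≠ 0 ∧ re L ∈ Nef X ∧ ¬ X.Ample L) : X.RC := by
  by_contra hR
  obtain ⟨H, G, τ, hr⟩ := ray hX hR h
  obtain ⟨c₁, hc₁, h1⟩ := outside hX hR hr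
  obtain ⟨c₂, hc₂, h2⟩ := inside hX hR hr
  obtain ⟨a, b, lam, K, hlam, hK, ha, hb, hab, hmon, hmon', hlim⟩ :=
    slow τ hr.irr (min c₁ c₂) (lt_min hc₁ hc₂) (by
      intro a b ha
      rcases lt_trichotomy ((b : ℝ)) (a * τ) with h | h | h
      · rw [abs_of_pos (by linarith)]
        exact (min_le_right _ _).trans (h2 a b ha h)
      · exfalso
        apply hr.irr
        have ha' : (a : ℝ) ≠ 0 := by exact_mod_cast ha.ne'
        exact ⟨(b : ℚ) / a, by push_cast; rw [h]; field_simp⟩
      · rw [abs_of_neg (by linarith), neg_sub]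
        exact (min_le_left _ _).trans (h1 a b ha h))
  exact chain hX hR hr a b lam K hlam hK ha hb hab hmon hmon' hlim

end Pool.OG
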