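import Mathlib
import Pool.Agent.H19.OG.Theory
import Pool.Agent.H19.OG.Defs
import Pool.Agent.H20.OG.CUB
import Pool.Agent.H20.OG.SIU
import Pool.Agent.H23.OG.AVD
import Pool.Agent.H19.OG.Hod
import Pool.Agent.H19.OG.Main3

/-!
The facts used in the proof are consequences of the published theorems.
-/

namespace Pool.OG

variable {X : Data}

/-- The facts, from the published theorems. -/
theorem facts_of (hX : Published X) : Facts X := by
  obtain ⟨V, hV⟩ := hX.veryGeneral
  obtain ⟨x, -⟩ := hV.ne
  have hP := hX.positivity
  have hC := hX.cohomology
  have hB := hX.rankTwo
  have hY := hX.cycles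
  have hS := hX.sections
  exact
    { pos :=
        { symm1 := hP.symm1
          symm2 := hP.symm2
          numerical := hP.numerical
          projective := hP.projective
          kleiman := hP.kleiman
          ample_deg := ample_deg_of hP
          ample_cube := ample_cube_of hC hP hS x
          nef_mul := nef_mul_of hP hY hS x
          hodge := hodge_of hP hC hS x
          c2_pos := hP.c2_pos }
      coh :=
        { rr := hC.rr
          serre := hC.serre
          kodaira := hC.kodaira
          peternell := hC.peternell
          siu := siu_of_avoid hP hC hY (avoid hY hS x) }
      bun :=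
        { ext := hB.ext
          unst := hB.unst
          sub_c2 := hB.sub_c2
          luebke := hB.luebke }
      cyc :=
        { pr_h0 := hY.pr_h0
          pr_ne := hY.pr_ne
          mc_le := hY.mc_le
          bez := hY.bez
          inter := hY.inter
          cv_meet := hY.cv_meet
          cv_sing := hY.cv_sing
          pr_meet := hY.pr_meet
          pr_sing := hY.pr_sing
          pencil := hY.pencil }
      wid :=
        { val := by
            intro H hH x
            obtain ⟨S, h1, h2, h3, h4⟩ := hS.val x
            refine ⟨fun k => S ((k : ℤ) • H), fun k _ => h1 _, ?_, ?_, h4 H hH⟩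
            · intro j k _ _ s hs s' hs'
              have := h2 _ _ s hs s' hs'
              rw [← add_smul] at this
              exact_mod_cast this
            · intro s hs
              have := h3 _ s hs
              simpa using this }
      vg := ⟨V, { ne := hV.ne, dense := hV.dense, curve := hV.curve, prime := hV.prime }⟩ }

/-- The main theorem over the published theorems. -/
theorem rational_curve_of (hX : Published X)
    (h : 2 ≤ X.n ∨ ∃ L : Fin X.n → ℤ, L ≠ 0 ∧ re L ∈ Nef X ∧ ¬ X.Ample L) : X.RC :=
  rational_curve (facts_of hX) h

end Pool.OG
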