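import Mathlib
import Pool.Agent.H19.OG.Defs
import Pool.Agent.H19.OG.Bas
import Pool.Agent.H19.OG.Pln
import Pool.Agent.H53.OG.ONE
import Pool.Agent.H20.OG.PEL
import Pool.Agent.H20.OG.COE
import Pool.Agent.H20.OG.WID
import Pool.Agent.H23.OG.F5
import Pool.Agent.H23.OG.F6
import Pool.Agent.H22.OG.F7

/-!
Assembly of the seven steps.
-/

namespace Pool.OG

variable {X : Data}

/-- an integral linear form, evaluated at an integral class, is an integer -/
theorem lin_int {n : ℕ} (c : Fin n → ℤ) (D : Fin n → ℤ) : ∃ m : ℤ, lin c (re D) = m :=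
  ⟨∑ i, c i * D i, by simp [lin, re]⟩

/-- Positive combinations of the two boundary classes are ample. -/
theorem comb_int (hP : Pos X) {L H : Fin X.n → ℤ} (hLn : re L ∈ Nef X) (hH : X.Ample H)
    {θ : ℝ} (hθ : θ < 0) (hM : re H + θ • re L ∈ Nef X) {b y : ℝ} (hb : 0 < b) (hy : 0 < y) :
    b • (re H + θ • re L) + y • re L ∈ interior (Nef X) := by
  have hε : 0 < min b (y / -θ) := lt_min hb (div_pos hy (by linarith))
  set ε := min b (y / -θ) with he
  have h1 : ε ≤ b := min_le_left _ _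
  have h2 : ε * (-θ) ≤ y := by
    rw [← le_div_iff₀ (by linarith)]; exact min_le_right _ _
  have h3 : b • (re H + θ • re L) + y • re L =
      ε • re H + ((b - ε) • (re H + θ • re L) + (y - ε * (-θ)) • re L) := by
    ext i
    simp only [Pi.add_apply, Pi.smul_apply, smul_eq_mul]
    ring
  rw [h3]
  exact int_add (int_smul hε (ample_int hP hH))
    (nef_add (nef_smul (by linarith) hM) (nef_smul (by linarith) hLn))

/-- A Calabi-Yau threefold with a nef line bundle which is neither trivial nor ample contains a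
rational curve. -/
theorem oguiso (hX : Facts X) (L : Fin X.n → ℤ) (hL0 : L ≠ 0)
    (hLn : ∀ C, 0 ≤ lin (X.dg C) (re L)) (hLa : ¬ X.Ample L) : X.RC := by
  by_contra hR
  have hP := hX.pos
  have hLn' : re L ∈ Nef X := hLn
  obtain ⟨V, hV⟩ := hX.vg
  obtain ⟨H, hH⟩ := hP.projective
  obtain ⟨A, B, C, θ, hA, hB, hC, hAe, hBe, hCe, hL3, hLc, hirr, hθ, hroot, hbig, hMn, hM3⟩ :=
    plane_of hP hX.coh hR (fun D h1 h2 h3 => one hX hR D h1 h2 h3) L hL0 hLn' hLa H hH
  obtain ⟨a, b, lam, K, hlam, hb0, hy0, hq, hmon, hyl, hbK, hbt⟩ :=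
    pell A B C hA hC θ hirr hθ hroot hbig
  obtain ⟨C₁, hC₁, hcoef⟩ := coef hX hR L hLn' H hH A B C θ hA hAe hBe hL3 hirr hroot hbig hMn hM3 K
  have hb0' : ∀ k, (0 : ℝ) < b k := fun k => by exact_mod_cast hb0 k
  have hCpos : (0 : ℝ) < C := by exact_mod_cast hC
  have hre : ∀ k, re (a k • L + b k • H) =
      (b k : ℝ) • (re H + θ • re L) + (a k - θ * b k) • re L := by
    intro k
    rw [re_add, re_smul, re_smul]
    ext i
    simp only [Pi.add_apply, Pi.smul_apply, smul_eq_mul]
    ring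
  have hamp : ∀ k, X.Ample (a k • L + b k • H) := by
    intro k
    rw [hP.kleiman, hre]
    exact comb_int hP hLn' hH hθ hMn (hb0' k) (hy0 k)
  have hcube : ∀ k, tri X.t (re (a k • L + b k • H)) (re (a k • L + b k • H))
      (re (a k • L + b k • H)) = (C : ℝ) * b k := by
    intro k
    have h1 : tri X.t (re L) (re H) (re L) = tri X.t (re L) (re L) (re H) := tri_symm2 hP _ _ _
    have h2 : tri X.t (re H) (re L) (re L) = tri X.t (re L) (re L) (re H) := by
      rw [tri_symm1 hP, h1]
    have h3 : tri X.t (re H) (re L) (re H) = tri X.t (re L) (re H) (re H) := tri_symm1 hP _ _ _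
    have h4 : tri X.t (re H) (re H) (re L) = tri X.t (re L) (re H) (re H) := by
      rw [tri_symm2 hP, h3]
    have hqk : (A : ℝ) * a k ^ 2 + B * a k * b k + C * b k ^ 2 = C := by exact_mod_cast hq k
    rw [re_add, re_smul, re_smul]
    simp only [tri_add1, tri_add2, tri_add3, tri_smul1, tri_smul2, tri_smul3]
    rw [h1, h2, h3, h4, hL3, ← hCe]
    have e1 : tri X.t (re L) (re L) (re H) = A / 3 := by linarith
    have e2 : tri X.t (re L) (re H) (re H) = B / 3 := by linarith
    rw [e1, e2]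
    linear_combination (b k : ℝ) * hqk
  have hc2 : ∀ k, lin X.c2 (re (a k • L + b k • H)) = lin X.c2 (re H) * b k := by
    intro k
    rw [re_add, re_smul, re_smul, lin_add, lin_smul, lin_smul, hLc]
    ring
  have hc2pos := hP.c2_pos H hH
  have hcoef' : ∀ k D, Eff X D (a k • L + b k • H) → ∀ p, (D p : ℝ) ≤ C₁ :=
    fun k D hD p => hcoef (a k) (b k) (hb0 k) (hy0 k) (hbK k) D hD p
  obtain ⟨C₃, hC₃, N, h5⟩ := step5 hX hR V hV (fun k => a k • L + b k • H) (fun k => (b k : ℝ))
    C (lin X.c2 (re H)) C₁ hamp hCpos hc2pos hcube hc2 hbt hcoef'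
  have hlC : 0 < lam * C₃ := mul_pos (by linarith) hC₃
  obtain ⟨N₂, hN₂⟩ : ∃ N₂, ∀ k, N₂ ≤ k →
      36 * (C₁ + 2 * (lam * C₃) + 1) ^ 2 < lin X.c2 (re H) * b k := by
    have h := hbt.eventually_gt_atTop (36 * (C₁ + 2 * (lam * C₃) + 1) ^ 2 / lin X.c2 (re H))
    obtain ⟨N₂, h⟩ := Filter.eventually_atTop.1 h
    refine ⟨N₂, fun k hk => ?_⟩
    have := h k hk
    rwa [div_lt_iff₀ hc2pos, mul_comm (b k : ℝ)] at this
  refine step7 hX V hV (re H + θ • re L) (fun k => a k • L + b k • H) (fun k => (b k : ℝ)) lam C₃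
    (max N N₂) hamp hlam.le hC₃ hbt ?_ ?_ hMn ?_
    (fun k hk => h5 k (le_trans (le_max_left _ _) hk)) ?_
  · intro k
    have h1 : lam • re (a (k + 1) • L + b (k + 1) • H) - re (a k • L + b k • H) =
        (lam * b (k + 1) - b k) • (re H + θ • re L) := by
      rw [hre, hre]
      ext i
      simp only [Pi.add_apply, Pi.sub_apply, Pi.smul_apply, smul_eq_mul]
      linear_combination (-(re L i)) * hyl k
    rw [h1]
    exact nef_smul (by have := hmon k; linarith) hMn
  · intro k
    have h1 : re (a k • L + b k • H) - (b k : ℝ) • (re H + θ • re L) =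
        (a k - θ * b k) • re L := by
      rw [hre]; abel
    rw [h1]
    exact nef_smul (hy0 k).le hLn'
  · intro D hD
    obtain ⟨h, hh⟩ := lin_int (X.dg D) H
    obtain ⟨l, hl⟩ := lin_int (X.dg D) L
    have hpos := hP.ample_deg H hH D
    rw [lin_add, lin_smul, hh, hl] at hD
    rw [hh] at hpos
    have hl0 : (l : ℝ) ≠ 0 := by
      intro h0
      rw [h0] at hD
      simp at hD
      rw [hD] at hpos
      simp at hpos
    apply hirr
    refine ⟨-(h : ℚ) / l, ?_⟩
    push_cast
    rw [div_eq_iff hl0]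
    linarith
  · intro k hk x hx D hD hDd
    apply step6 hX hR V hV (a k • L + b k • H) (hamp k) C₁ (lam * C₃) (hcoef' k) x hx ?_ D hD hDd
    by_contra hcon
    push Not at hcon
    have hw := width hX (a k • L + b k • H) (hamp k) x (C₁ + 2 * (lam * C₃)) (by positivity) hcon
    rw [hc2] at hw
    have := hN₂ k (le_trans (le_max_right _ _) hk)
    linarith

end Pool.OG
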